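import Mathlib

set_option autoImplicit false

/-!
If `T = ε + s Q` with `‖Q‖ ≤ 1`, `ε + s = 1`, then `‖T ^ n (1 - T)‖ = O (n ^ (-1/2))`.
-/

namespace Pool.Agent.Q289.QW

open Polynomial Finset

/-- the binomial weights -/
noncomputable def bw (s ε : ℝ) (n k : ℕ) : ℝ := (n.choose k : ℝ) * s ^ k * ε ^ (n - k)

lemma bw_nonneg {s ε : ℝ} (hs : 0 ≤ s) (hε : 0 ≤ ε) (n k : ℕ) : 0 ≤ bw s ε n k := by
  unfold bw; positivity

lemma bw_eval {s ε : ℝ} (h : ε + s = 1) (n k : ℕ) :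
    (bernsteinPolynomial ℝ n k).eval s = bw s ε n k := by
  unfold bernsteinPolynomial bw
  have : (1 : ℝ) - s = ε := by linarith
  simp [this]

lemma bw_sum {s ε : ℝ} (h : ε + s = 1) (n : ℕ) : ∑ k ∈ range (n + 1), bw s ε n k = 1 := by
  have h1 := congrArg (Polynomial.eval s) (bernsteinPolynomial.sum ℝ n)
  rw [eval_finsetSum, eval_one] at h1
  rw [← h1]
  exact sum_congr rfl fun k _ => (bw_eval h n k).symm

lemma bw_var {s ε : ℝ} (h : ε + s = 1) (n : ℕ) :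
    ∑ k ∈ range (n + 1), bw s ε n k * (n * s - k) ^ 2 = n * s * ε := by
  have h1 := congrArg (Polynomial.eval s) (bernsteinPolynomial.variance ℝ n)
  rw [eval_finsetSum] at h1
  have h2 : (1 : ℝ) - s = ε := by linarith
  have h3 : eval s (n • X * (1 - X)) = n * s * ε := by
    simp [h2]
  rw [h3] at h1
  rw [← h1]
  refine sum_congr rfl fun k _ => ?_
  rw [eval_mul, bw_eval h]
  simp
  ring

lemma bw_abs {s ε : ℝ} (hs : 0 < s) (hε : 0 < ε) (h : ε + s = 1) (n : ℕ) :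
    ∑ k ∈ range (n + 2), bw s ε (n + 1) k * |((n + 1 : ℕ) : ℝ) * s - k|
      ≤ √(((n + 1 : ℕ) : ℝ) * s * ε) := by
  set c := √(((n + 1 : ℕ) : ℝ) * s * ε) with hc
  have hc0 : 0 < c := Real.sqrt_pos.2 (by positivity)
  have hc2 : c ^ 2 = ((n + 1 : ℕ) : ℝ) * s * ε := Real.sq_sqrt (by positivity)
  have h1 : ∀ t : ℝ, |t| ≤ (t ^ 2 / c + c) / 2 := by
    intro t
    rw [le_div_iff₀ (by norm_num : (0:ℝ) < 2), ← sub_nonneg]
    have : t ^ 2 / c + c - |t| * 2 = (|t| - c) ^ 2 / c := by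
      rw [← sq_abs t]; field_simp; ring
    rw [this]
    positivity
  calc ∑ k ∈ range (n + 2), bw s ε (n + 1) k * |((n + 1 : ℕ) : ℝ) * s - k|
      ≤ ∑ k ∈ range (n + 2), bw s ε (n + 1) k * (((((n + 1 : ℕ) : ℝ) * s - k) ^ 2 / c + c) / 2) :=
        sum_le_sum fun k _ => mul_le_mul_of_nonneg_left (h1 _) (bw_nonneg hs.le hε.le _ _)
    _ = ((∑ k ∈ range (n + 1 + 1), bw s ε (n + 1) k * (((n + 1 : ℕ) : ℝ) * s - k) ^ 2) / c
          + c * ∑ k ∈ range (n + 1 + 1), bw s ε (n + 1) k) / 2 := by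
        rw [sum_div, mul_sum, ← sum_add_distrib, sum_div]
        exact sum_congr rfl fun k _ => by ring
    _ = c := by
        rw [bw_var h, bw_sum h, ← hc2]
        field_simp
        ring

lemma poly_id (s ε : ℝ) (n : ℕ) (h : ε + s = 1) :
    C (((n + 1 : ℕ) : ℝ) * s * ε) * (C ε + C s * X) ^ n * (1 - X)
      = ∑ k ∈ range (n + 2), C (bw s ε (n + 1) k * (((n + 1 : ℕ) : ℝ) * s - k)) * X ^ k := by
  have h1 : (C ε + C s * X) ^ (n + 1) = ∑ k ∈ range (n + 2), C (bw s ε (n + 1) k) * X ^ k := by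
    rw [add_comm, add_pow]
    refine sum_congr rfl fun k _ => ?_
    unfold bw
    simp only [map_mul, map_pow, map_natCast, mul_pow]
    ring
  have h2 := congrArg derivative h1
  rw [derivative_pow_succ, derivative_sum] at h2
  have h3 : X * ∑ k ∈ range (n + 2), derivative (C (bw s ε (n + 1) k) * X ^ k)
      = ∑ k ∈ range (n + 2), C (bw s ε (n + 1) k * k) * X ^ k := by
    rw [mul_sum]
    refine sum_congr rfl fun k _ => ?_
    rw [derivative_C_mul, derivative_X_pow]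
    rcases k with _ | k
    · simp
    · simp only [Nat.add_sub_cancel, map_mul, map_natCast]
      ring
  have h4 : derivative (C ε + C s * X) = C s := by simp
  rw [h4] at h2
  have h5 : ∑ k ∈ range (n + 2), C (bw s ε (n + 1) k * (((n + 1 : ℕ) : ℝ) * s - k)) * X ^ k
      = C (((n + 1 : ℕ) : ℝ) * s) * (C ε + C s * X) ^ (n + 1)
        - X * (C ((n : ℝ) + 1) * (C ε + C s * X) ^ n * C s) := by
    rw [h2, h3, h1, mul_sum, ← sum_sub_distrib]
    refine sum_congr rfl fun k _ => ?_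
    simp only [map_mul, map_sub]
    ring
  rw [h5]
  have h6 : C ε = 1 - C s := by
    rw [← C_1, ← C_sub]; congr 1; linarith
  simp only [map_mul, h6, Nat.cast_add, Nat.cast_one, map_add, C_1]
  ring

variable {V : Type*} [SeminormedAddCommGroup V] [NormedSpace ℝ V]

lemma contraction_pow {Q : V →ₗ[ℝ] V} (hQ : ∀ v, ‖Q v‖ ≤ ‖v‖) (k : ℕ) (v : V) :
    ‖(Q ^ k) v‖ ≤ ‖v‖ := by
  induction k with
  | zero => simp
  | succ k ih =>
    rw [pow_succ']
    exact (hQ _).trans ih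

/-- the decay of `T ^ n (1 - T)` -/
lemma decay {Q T : V →ₗ[ℝ] V} (hQ : ∀ v, ‖Q v‖ ≤ ‖v‖) {s ε : ℝ} (hs : 0 < s) (hε : 0 < ε)
    (h : ε + s = 1) (hT : ∀ v, T v = ε • v + s • Q v) (n : ℕ) (v : V) :
    ‖(T ^ n) (v - T v)‖ ≤ s * ‖v‖ / √(((n + 1 : ℕ) : ℝ) * s * ε) := by
  have hTQ : T = aeval Q (C ε + C s * X) := by
    ext v
    rw [hT v]
    simp [Algebra.algebraMap_eq_smul_one]
  have h1 := congrArg (fun p : ℝ[X] => (aeval Q p) v) (poly_id s ε n h)
  rw [mul_assoc, map_mul (aeval Q), map_mul (aeval Q), map_pow (aeval Q), ← hTQ, map_sum] at h1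
  have h2 : (aeval Q (1 - X : ℝ[X])) v = v - Q v := by simp
  rw [aeval_C, Algebra.algebraMap_eq_smul_one, smul_mul_assoc, one_mul, LinearMap.smul_apply,
    Module.End.mul_apply, h2, LinearMap.sum_apply] at h1
  have h3 : v - T v = s • (v - Q v) := by
    have h5 : s • v = v - ε • v := by
      have : s = 1 - ε := by linarith
      rw [this, sub_smul, one_smul]
    rw [hT v, smul_sub, h5]
    abel
  rw [h3, map_smul, norm_smul, Real.norm_of_nonneg hs.le]
  set c := √(((n + 1 : ℕ) : ℝ) * s * ε) with hc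
  have hc0 : 0 < c := Real.sqrt_pos.2 (by positivity)
  have hc2 : c ^ 2 = ((n + 1 : ℕ) : ℝ) * s * ε := Real.sq_sqrt (by positivity)
  have h4 : c ^ 2 * ‖(T ^ n) (v - Q v)‖ ≤ c * ‖v‖ := by
    rw [hc2]
    have h5 : ((n + 1 : ℕ) : ℝ) * s * ε * ‖(T ^ n) (v - Q v)‖
        = ‖(((n + 1 : ℕ) : ℝ) * s * ε) • (T ^ n) (v - Q v)‖ := by
      rw [norm_smul, Real.norm_of_nonneg (by positivity)]
    rw [h5, h1]
    refine (norm_sum_le _ _).trans ?_
    refine (sum_le_sum (g := fun k => bw s ε (n + 1) k * |((n + 1 : ℕ) : ℝ) * s - k| * ‖v‖)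
      fun k _ => ?_).trans ?_
    · rw [map_mul (aeval Q), aeval_C, Algebra.algebraMap_eq_smul_one, smul_mul_assoc, one_mul,
        LinearMap.smul_apply, map_pow, aeval_X, norm_smul, Real.norm_eq_abs, abs_mul,
        abs_of_nonneg (bw_nonneg hs.le hε.le _ _)]
      exact mul_le_mul_of_nonneg_left (contraction_pow hQ k v)
        (mul_nonneg (bw_nonneg hs.le hε.le _ _) (abs_nonneg _))
    · rw [← sum_mul]
      exact mul_le_mul_of_nonneg_right (bw_abs hs hε h n) (norm_nonneg _)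
  have h6 : ‖(T ^ n) (v - Q v)‖ ≤ ‖v‖ / c := by
    rw [le_div_iff₀ hc0]
    have : c * (‖(T ^ n) (v - Q v)‖ * c) ≤ c * ‖v‖ := by linarith [h4, sq c]
    exact le_of_mul_le_mul_left (by nlinarith) hc0
  calc s * ‖(T ^ n) (v - Q v)‖ ≤ s * (‖v‖ / c) := mul_le_mul_of_nonneg_left h6 hs.le
    _ = s * ‖v‖ / c := by ring

end Pool.Agent.Q289.QW
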