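import Pool.Agent.Q289.QW.Rev
import Pool.Agent.Q289.QW.Decay

set_option autoImplicit false

/-!
The walk on the circle: unique ergodicity and uniform convergence.
-/

namespace Pool.Agent.Q289.QW

open MeasureTheory Set Filter Topology Metric
open scoped ENNReal NNReal

/-- the transition operator -/
noncomputable def op (α : ℝ) (p : C(UnitAddCircle, ℝ)) :
    C(UnitAddCircle, ℝ) →ₗ[ℝ] C(UnitAddCircle, ℝ) where
  toFun φ := ⟨fun y => p y * φ (y + (α : UnitAddCircle)) + (1 - p y) * φ (y - (α : UnitAddCircle)),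
    by fun_prop⟩
  map_add' φ ψ := by ext y; simp only [ContinuousMap.coe_mk, ContinuousMap.add_apply]; ring
  map_smul' a φ := by
    ext y; simp only [ContinuousMap.coe_mk, ContinuousMap.smul_apply, smul_eq_mul,
      RingHom.id_apply]; ring

variable {α : ℝ} {p : C(UnitAddCircle, ℝ)}

lemma op_apply (φ : C(UnitAddCircle, ℝ)) (y : UnitAddCircle) :
    op α p φ y = p y * φ (y + (α : UnitAddCircle)) + (1 - p y) * φ (y - (α : UnitAddCircle)) := rfl

lemma op_norm_le (hp0 : ∀ y, 0 ≤ p y) (hp1 : ∀ y, p y ≤ 1) (φ : C(UnitAddCircle, ℝ)) :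
    ‖op α p φ‖ ≤ ‖φ‖ := by
  rw [ContinuousMap.norm_le _ (norm_nonneg _)]
  intro y
  rw [op_apply]
  refine (norm_add_le _ _).trans ?_
  rw [norm_mul, norm_mul, Real.norm_of_nonneg (hp0 y),
    Real.norm_of_nonneg (sub_nonneg.2 (hp1 y))]
  have h1 := mul_le_mul_of_nonneg_left (φ.norm_coe_le_norm (y + (α : UnitAddCircle))) (hp0 y)
  have h2 := mul_le_mul_of_nonneg_left (φ.norm_coe_le_norm (y - (α : UnitAddCircle)))
    (sub_nonneg.2 (hp1 y))
  linarith

/-- the jump probabilities of the walk observed at even times -/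
noncomputable def p2 (α : ℝ) (p : C(UnitAddCircle, ℝ)) (y : UnitAddCircle) : ℝ :=
  p y * p (y + (α : UnitAddCircle))

/-- the jump probabilities of the walk observed at even times -/
noncomputable def q2 (α : ℝ) (p : C(UnitAddCircle, ℝ)) (y : UnitAddCircle) : ℝ :=
  (1 - p y) * (1 - p (y - (α : UnitAddCircle)))

lemma coe_two_mul (α : ℝ) : ((2 * α : ℝ) : UnitAddCircle) = (α : UnitAddCircle) + α := by
  rw [two_mul, AddCircle.coe_add]

lemma op_op_apply (φ : C(UnitAddCircle, ℝ)) (y : UnitAddCircle) :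
    op α p (op α p φ) y = φ y + (p2 α p y * (φ (y + ((2 * α : ℝ) : UnitAddCircle)) - φ y)
      + q2 α p y * (φ (y - ((2 * α : ℝ) : UnitAddCircle)) - φ y)) := by
  rw [op_apply, op_apply, op_apply, coe_two_mul, add_sub_cancel_right, sub_add_cancel,
    add_assoc y, sub_sub y]
  unfold p2 q2
  ring

/-- the standing assumptions -/
structure Good (α : ℝ) (p : C(UnitAddCircle, ℝ)) (L δ : ℝ) : Prop where
  irr : Irrational α
  L0 : 0 ≤ L
  δ0 : 0 < δ
  lo : ∀ y, δ ≤ p y
  hi : ∀ y, p y ≤ 1 - δ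
  lip : ∀ x y, |p x - p y| ≤ L * dist x y
  log : ∫ y, Real.log (p y) = ∫ y, Real.log (1 - p y)

variable {L δ : ℝ}

lemma Good.stay (h : Good α p L δ) (y : UnitAddCircle) : δ ≤ 1 - p2 α p y - q2 α p y := by
  unfold p2 q2
  have h1 := h.lo y
  have h2 := h.hi y
  have h3 := h.hi (y + (α : UnitAddCircle))
  have h4 := h.lo (y - (α : UnitAddCircle))
  have h0 := h.δ0
  nlinarith [mul_nonneg (h0.le.trans h1) (sub_nonneg.2 (show δ ≤ 1 - p (y + (α : UnitAddCircle)) by
    linarith)), mul_nonneg (show (0:ℝ) ≤ 1 - p y by linarith) (sub_nonneg.2 h4)]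

lemma Good.p0 (h : Good α p L δ) (y : UnitAddCircle) : 0 < p y := h.δ0.trans_le (h.lo y)

lemma Good.p1 (h : Good α p L δ) (y : UnitAddCircle) : p y < 1 := by
  have := h.hi y; have := h.δ0; linarith

lemma Good.δ1 (h : Good α p L δ) : δ < 1 := by
  have := h.hi 0; have := h.p0 0; linarith

/-- the decay -/
lemma Good.decay (h : Good α p L δ) (φ : C(UnitAddCircle, ℝ)) :
    Tendsto (fun n : ℕ => ‖((op α p) ^ n) (φ - op α p (op α p φ))‖) atTop (𝓝 0) := by
  have hs : 0 < 1 - δ := by have := h.δ1; linarith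
  set T : C(UnitAddCircle, ℝ) →ₗ[ℝ] C(UnitAddCircle, ℝ) := (op α p) ^ 2 with hT
  have hTa : ∀ φ, T φ = op α p (op α p φ) := fun φ => by
    rw [hT, pow_two]; rfl
  set Q : C(UnitAddCircle, ℝ) →ₗ[ℝ] C(UnitAddCircle, ℝ) :=
    (1 - δ)⁻¹ • (T - δ • (1 : Module.End ℝ C(UnitAddCircle, ℝ))) with hQ
  have hQa : ∀ φ, Q φ = (1 - δ)⁻¹ • (T φ - δ • φ) := fun φ => rfl
  have hQn : ∀ φ, ‖Q φ‖ ≤ ‖φ‖ := by
    intro φ
    rw [hQa, norm_smul, Real.norm_of_nonneg (inv_nonneg.2 hs.le), inv_mul_le_iff₀ hs]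
    rw [ContinuousMap.norm_le _ (by positivity)]
    intro y
    rw [ContinuousMap.sub_apply, ContinuousMap.smul_apply, hTa, op_op_apply, smul_eq_mul]
    have h1 := h.stay y
    have h2 : 0 ≤ p2 α p y := mul_nonneg (h.p0 _).le (h.p0 _).le
    have h3 : 0 ≤ q2 α p y := mul_nonneg (sub_nonneg.2 (h.p1 _).le) (sub_nonneg.2 (h.p1 _).le)
    have e1 := abs_le.1 (Real.norm_eq_abs _ ▸ φ.norm_coe_le_norm y)
    have e2 := abs_le.1 (Real.norm_eq_abs _ ▸
      φ.norm_coe_le_norm (y + ((2 * α : ℝ) : UnitAddCircle)))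
    have e3 := abs_le.1 (Real.norm_eq_abs _ ▸
      φ.norm_coe_le_norm (y - ((2 * α : ℝ) : UnitAddCircle)))
    rw [Real.norm_eq_abs, abs_le]
    have h4 : 0 ≤ 1 - p2 α p y - q2 α p y - δ := by linarith
    constructor
    · nlinarith [mul_nonneg h2 (by linarith [e2.1] :
        0 ≤ φ (y + ((2 * α : ℝ) : UnitAddCircle)) + ‖φ‖), mul_nonneg h3 (by linarith [e3.1] :
        0 ≤ φ (y - ((2 * α : ℝ) : UnitAddCircle)) + ‖φ‖), mul_nonneg h4 (by linarith [e1.1] :
        0 ≤ φ y + ‖φ‖)]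
    · nlinarith [mul_nonneg h2 (by linarith [e2.2] :
        0 ≤ ‖φ‖ - φ (y + ((2 * α : ℝ) : UnitAddCircle))), mul_nonneg h3 (by linarith [e3.2] :
        0 ≤ ‖φ‖ - φ (y - ((2 * α : ℝ) : UnitAddCircle))), mul_nonneg h4 (by linarith [e1.2] :
        0 ≤ ‖φ‖ - φ y)]
  have hTQ : ∀ φ, T φ = δ • φ + (1 - δ) • Q φ := by
    intro φ
    rw [hQa, smul_smul, mul_inv_cancel₀ hs.ne', one_smul]
    abel
  have hd := fun n => Pool.Agent.Q289.QW.decay hQn hs h.δ0 (by ring : δ + (1 - δ) = 1) hTQ n φ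
  have hbound : ∀ n : ℕ, ‖((op α p) ^ n) (φ - op α p (op α p φ))‖
      ≤ (1 - δ) * ‖φ‖ / √(((n / 2 + 1 : ℕ) : ℝ) * (1 - δ) * δ) := by
    intro n
    refine le_trans ?_ (hd (n / 2))
    rw [hTa, hT, ← pow_mul]
    conv_lhs => rw [← Nat.mod_add_div n 2, pow_add, Module.End.mul_apply]
    exact contraction_pow (op_norm_le (fun y => (h.p0 y).le) fun y => (h.p1 y).le) _ _
  refine squeeze_zero (fun n => norm_nonneg _) hbound ?_
  have h1 : Tendsto (fun n : ℕ => ((n / 2 + 1 : ℕ) : ℝ) * (1 - δ) * δ) atTop atTop := by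
    have : Tendsto (fun n : ℕ => ((n / 2 + 1 : ℕ) : ℝ)) atTop atTop := by
      refine tendsto_natCast_atTop_atTop.comp ?_
      refine tendsto_atTop_mono (fun n => Nat.le_succ _) ?_
      exact Nat.tendsto_div_const_atTop (by norm_num)
    exact (this.atTop_mul_const hs).atTop_mul_const h.δ0
  exact (tendsto_const_nhds).div_atTop (Real.tendsto_sqrt_atTop.comp h1)

/-- uniqueness of the stationary measure of the walk observed at even times -/
lemma Good.unique2 (h : Good α p L δ) {ν ν' : Measure UnitAddCircle} [IsProbabilityMeasure ν]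
    [IsProbabilityMeasure ν'] (hν : ∀ φ, ∫ y, op α p (op α p φ) y ∂ν = ∫ y, φ y ∂ν)
    (hν' : ∀ φ, ∫ y, op α p (op α p φ) y ∂ν' = ∫ y, φ y ∂ν') : ν = ν' := by
  have hst : ∀ {ν : Measure UnitAddCircle} [IsProbabilityMeasure ν]
      (_ : ∀ φ, ∫ y, op α p (op α p φ) y ∂ν = ∫ y, φ y ∂ν), Stat (2 * α) (p2 α p) (q2 α p) ν := by
    intro ν _ hν φ
    have h1 := hν φ
    have h2 : ∀ y, (p2 α p y * (φ (y + ((2 * α : ℝ) : UnitAddCircle)) - φ y)
      + q2 α p y * (φ (y - ((2 * α : ℝ) : UnitAddCircle)) - φ y))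
        = op α p (op α p φ) y - φ y := by
      intro y; rw [op_op_apply]; ring
    simp_rw [h2]
    rw [integral_sub (intg ν (ContinuousMap.continuous _)) (intg ν φ.continuous), h1, sub_self]
  have hα : Irrational (2 * α) := by
    have := h.irr.natCast_mul (m := 2) (by norm_num)
    exact_mod_cast this
  have hle1 : ∀ y, p y ≤ 1 := fun y => (h.p1 y).le
  have hlip2 : ∀ (f g : UnitAddCircle → ℝ), (∀ y, 0 ≤ f y ∧ f y ≤ 1) → (∀ y, 0 ≤ g y ∧ g y ≤ 1) →
      (∀ x y, |f x - f y| ≤ L * dist x y) → (∀ x y, |g x - g y| ≤ L * dist x y) →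
      ∀ x y, |f x * g x - f y * g y| ≤ (2 * L) * dist x y := by
    intro f g hf hg hfL hgL x y
    have e : f x * g x - f y * g y = f x * (g x - g y) + g y * (f x - f y) := by ring
    rw [e]
    refine (abs_add_le _ _).trans ?_
    rw [abs_mul, abs_mul, abs_of_nonneg (hf x).1, abs_of_nonneg (hg y).1]
    have e1 := mul_le_mul (hf x).2 (hgL x y) (abs_nonneg _) zero_le_one
    have e2 := mul_le_mul (hg y).2 (hfL x y) (abs_nonneg _) zero_le_one
    linarith
  have hq : ∀ y, 0 ≤ 1 - p y ∧ 1 - p y ≤ 1 := fun y =>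
    ⟨by have := h.p1 y; linarith, by have := h.p0 y; linarith⟩
  have hlog : ∀ {f : UnitAddCircle → ℝ} (_ : Continuous f) (_ : ∀ y, 0 < f y) (a : UnitAddCircle),
      ∫ y, Real.log (f y * f (y + a)) = 2 * ∫ y, Real.log (f y) := by
    intro f hf hf0 a
    have e1 : ∀ y, Real.log (f y * f (y + a)) = Real.log (f y) + Real.log (f (y + a)) := fun y =>
      Real.log_mul (hf0 _).ne' (hf0 _).ne'
    simp_rw [e1]
    have e3 : Integrable (fun y => Real.log (f (y + a))) (volume : Measure UnitAddCircle) :=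
      intg _ ((hf.comp (by fun_prop : Continuous fun y : UnitAddCircle => y + a)).log
        fun y => (hf0 _).ne')
    rw [integral_add (intg _ (hf.log fun y => (hf0 y).ne')) e3]
    have e2 := integral_add_right_eq_self (μ := (volume : Measure UnitAddCircle))
      (fun y => Real.log (f y)) a
    rw [e2]
    ring
  refine (hst hν).unique (hst hν') hα (L := 2 * L) (δ := δ ^ 2) (by have := h.L0; positivity)
    (by have := h.δ0; positivity) ?_ ?_ ?_ ?_ ?_ ?_ ?_
  · intro y
    unfold p2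
    rw [sq]
    exact mul_le_mul (h.lo _) (h.lo _) h.δ0.le (h.p0 _).le
  · intro y
    unfold p2
    exact mul_le_one₀ (h.p1 _).le (h.p0 _).le (h.p1 _).le
  · intro y
    unfold q2
    rw [sq]
    have h1 := h.hi y
    have h2 := h.hi (y - (α : UnitAddCircle))
    exact mul_le_mul (by linarith) (by linarith) h.δ0.le (by have := h.δ0; linarith)
  · intro y
    unfold q2
    exact mul_le_one₀ (hq _).2 (hq _).1 (hq _).2
  · apply hlip2 (fun y => p y) (fun y => p (y + (α : UnitAddCircle)))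
      (fun y => ⟨(h.p0 y).le, (h.p1 y).le⟩) (fun y => ⟨(h.p0 _).le, (h.p1 _).le⟩) h.lip
    intro x y
    have := h.lip (x + (α : UnitAddCircle)) (y + (α : UnitAddCircle))
    rwa [dist_add_right] at this
  · apply hlip2 (fun y => 1 - p y) (fun y => 1 - p (y - (α : UnitAddCircle))) hq
      (fun y => hq _)
    · intro x y
      have := h.lip y x
      rw [dist_comm] at this
      have e : 1 - p x - (1 - p y) = p y - p x := by ring
      rwa [e]
    · intro x y
      have := h.lip (y - (α : UnitAddCircle)) (x - (α : UnitAddCircle))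
      rw [dist_sub_right, dist_comm] at this
      have e : 1 - p (x - (α : UnitAddCircle)) - (1 - p (y - (α : UnitAddCircle)))
        = p (y - (α : UnitAddCircle)) - p (x - (α : UnitAddCircle)) := by ring
      rwa [e]
  · have e1 := hlog p.continuous h.p0 (α : UnitAddCircle)
    have e2 := hlog (f := fun y => 1 - p y) (by fun_prop) (fun y => by have := h.p1 y; linarith)
      (-(α : UnitAddCircle))
    simp only [← sub_eq_add_neg] at e2
    unfold p2 q2
    rw [e1, e2, h.log]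

/-- the law of the walk at time `n` -/
noncomputable def mm (α : ℝ) (p : C(UnitAddCircle, ℝ)) : ℕ → UnitAddCircle → Measure UnitAddCircle
  | 0 => fun x => Measure.dirac x
  | n + 1 => fun x => ENNReal.ofReal (p x) • mm α p n (x + (α : UnitAddCircle))
      + ENNReal.ofReal (1 - p x) • mm α p n (x - (α : UnitAddCircle))

lemma Good.mm_prob (h : Good α p L δ) (n : ℕ) (x : UnitAddCircle) :
    IsProbabilityMeasure (mm α p n x) := by
  induction n generalizing x with
  | zero => unfold mm; infer_instance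
  | succ n ih =>
    constructor
    unfold mm
    have := ih (x + (α : UnitAddCircle))
    have := ih (x - (α : UnitAddCircle))
    rw [Measure.add_apply, Measure.smul_apply, Measure.smul_apply, measure_univ, measure_univ,
      smul_eq_mul, smul_eq_mul, mul_one, mul_one, ← ENNReal.ofReal_add (h.p0 x).le
      (by have := h.p1 x; linarith)]
    simp

lemma Good.mm_integral (h : Good α p L δ) (n : ℕ) (x : UnitAddCircle) (φ : C(UnitAddCircle, ℝ)) :
    ∫ y, φ y ∂(mm α p n x) = ((op α p) ^ n) φ x := by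
  induction n generalizing x with
  | zero => simp [mm, integral_dirac]
  | succ n ih =>
    have := h.mm_prob n (x + (α : UnitAddCircle))
    have := h.mm_prob n (x - (α : UnitAddCircle))
    unfold mm
    rw [integral_add_measure ((intg _ φ.continuous).smul_measure ENNReal.ofReal_ne_top)
      ((intg _ φ.continuous).smul_measure ENNReal.ofReal_ne_top), integral_smul_measure,
      integral_smul_measure, ih, ih, pow_succ', Module.End.mul_apply, op_apply,
      ENNReal.toReal_ofReal (h.p0 x).le, ENNReal.toReal_ofReal (by have := h.p1 x; linarith)]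
    rfl

lemma Good.limit (h : Good α p L δ) {n : ℕ → ℕ} (hn : Tendsto n atTop atTop)
    (x : ℕ → UnitAddCircle) : ∃ μ : Measure UnitAddCircle, IsProbabilityMeasure μ ∧
      (∀ φ, ∫ y, op α p (op α p φ) y ∂μ = ∫ y, φ y ∂μ) ∧
      ∀ φ : C(UnitAddCircle, ℝ), Tendsto (fun k => ((op α p) ^ (n k)) φ (x k))
        (hyperfilter ℕ : Filter ℕ) (𝓝 (∫ y, φ y ∂μ)) := by
  let F : ℕ → ProbabilityMeasure UnitAddCircle := fun k => ⟨mm α p (n k) (x k), h.mm_prob _ _⟩
  obtain ⟨μ, -, hμ⟩ := (isCompact_univ (X := ProbabilityMeasure UnitAddCircle)).ultrafilter_le_nhds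
    ((hyperfilter ℕ).map F) (by simp)
  have hF : Tendsto F (hyperfilter ℕ : Filter ℕ) (𝓝 μ) := hμ
  have hlim : ∀ φ : C(UnitAddCircle, ℝ), Tendsto (fun k => ((op α p) ^ (n k)) φ (x k))
        (hyperfilter ℕ : Filter ℕ) (𝓝 (∫ y, φ y ∂(μ : Measure UnitAddCircle))) := by
    intro φ
    have h1 := (ProbabilityMeasure.tendsto_iff_forall_integral_tendsto.1 hF)
      (BoundedContinuousFunction.mkOfCompact φ)
    refine h1.congr fun k => ?_
    exact h.mm_integral (n k) (x k) φ
  refine ⟨μ, inferInstance, fun φ => ?_, hlim⟩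
  have h1 := (hlim φ).sub (hlim (op α p (op α p φ)))
  have h2 : Tendsto (fun k => ((op α p) ^ (n k)) φ (x k)
      - ((op α p) ^ (n k)) (op α p (op α p φ)) (x k)) (hyperfilter ℕ : Filter ℕ) (𝓝 0) := by
    have h3 := (h.decay φ).comp hn
    have h4 : Tendsto (fun k => ((op α p) ^ (n k)) φ (x k)
      - ((op α p) ^ (n k)) (op α p (op α p φ)) (x k)) atTop (𝓝 0) := by
      apply squeeze_zero_norm _ h3
      intro k
      have := ((op α p) ^ (n k) : C(UnitAddCircle, ℝ) →ₗ[ℝ] C(UnitAddCircle, ℝ)).map_sub φ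
        (op α p (op α p φ))
      simp only [Function.comp_apply]
      rw [this]
      exact ContinuousMap.norm_coe_le_norm (((op α p) ^ (n k)) φ
        - ((op α p) ^ (n k)) (op α p (op α p φ))) (x k)
    exact h4.mono_left (Nat.hyperfilter_le_atTop)
  have h3 := tendsto_nhds_unique h1 h2
  linarith

/-- existence, uniqueness and uniform convergence -/
theorem Good.main (h : Good α p L δ) : ∃ ν : Measure UnitAddCircle, IsProbabilityMeasure ν ∧
    (∀ φ, ∫ y, op α p φ y ∂ν = ∫ y, φ y ∂ν) ∧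
    (∀ ν' : Measure UnitAddCircle, IsProbabilityMeasure ν' →
      (∀ φ, ∫ y, op α p φ y ∂ν' = ∫ y, φ y ∂ν') → ν' = ν) ∧
    ∀ φ : C(UnitAddCircle, ℝ), Tendsto (fun n : ℕ => ‖((op α p) ^ n) φ
      - ContinuousMap.const _ (∫ y, φ y ∂ν)‖) atTop (𝓝 0) := by
  obtain ⟨μ, hμp, hμ2, hμ⟩ := h.limit tendsto_id (fun _ => 0)
  obtain ⟨μ', hμp', hμ2', hμ'⟩ := h.limit (tendsto_add_atTop_nat 1) (fun _ => 0)
  have hμμ : μ' = μ := h.unique2 hμ2' hμ2
  rw [hμμ] at hμ'
  have hst : ∀ φ, ∫ y, op α p φ y ∂μ = ∫ y, φ y ∂μ := by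
    intro φ
    refine tendsto_nhds_unique (hμ (op α p φ)) ?_
    refine (hμ' φ).congr fun k => ?_
    rw [id, pow_succ, Module.End.mul_apply]
  refine ⟨μ, hμp, hst, ?_, ?_⟩
  · intro ν' hν'p hν'
    exact h.unique2 (fun φ => by rw [hν', hν']) hμ2
  · intro φ
    by_contra hc
    rw [Metric.tendsto_atTop] at hc
    push Not at hc
    obtain ⟨ε, hε, hfreq⟩ := hc
    choose n hn1 hn2 using hfreq
    have hx : ∀ k, ∃ x, ε / 2 ≤ |((op α p) ^ (n k)) φ x - ∫ y, φ y ∂μ| := by
      intro k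
      by_contra hc
      push Not at hc
      have h1 := hn2 k
      rw [Real.dist_eq, sub_zero, abs_of_nonneg (norm_nonneg _)] at h1
      have h2 : ‖((op α p) ^ (n k)) φ - ContinuousMap.const _ (∫ y, φ y ∂μ)‖ ≤ ε / 2 := by
        rw [ContinuousMap.norm_le _ (by positivity)]
        intro x
        rw [ContinuousMap.sub_apply, ContinuousMap.const_apply, Real.norm_eq_abs]
        exact (hc x).le
      linarith
    choose x hx using hx
    obtain ⟨μ₁, h1p, h12, h1⟩ := h.limit (n := n) (tendsto_atTop_mono hn1 tendsto_id) x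
    have h2 : μ₁ = μ := h.unique2 h12 hμ2
    rw [h2] at h1
    have h3 := ((h1 φ).sub_const (∫ y, φ y ∂μ)).abs
    rw [sub_self, abs_zero] at h3
    have h4 := ge_of_tendsto h3 (Eventually.of_forall hx)
    linarith

end Pool.Agent.Q289.QW
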