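import Mathlib

set_option autoImplicit false

/-!
Rational approximation and the distribution of the orbits of a rotation of the circle.
-/

namespace Pool.Agent.Q289.QW

open Set Filter Topology

/-- good rational approximations of an irrational number, with large denominators -/
lemma exists_approx {β : ℝ} (hβ : Irrational β) (N : ℕ) :
    ∃ r : ℚ, N < r.den ∧ |β - r| ≤ 1 / (r.den : ℝ) ^ 2 := by
  have h1 := hβ.eventually_forall_le_dist_cast_rat_of_den_le N
  obtain ⟨ε, hε0, hε⟩ : ∃ ε > 0, ∀ r : ℚ, r.den ≤ N → ε ≤ dist β r := by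
    have h2 : ∀ᶠ ε in 𝓝[>] (0:ℝ), ∀ r : ℚ, r.den ≤ N → ε ≤ dist β r := nhdsWithin_le_nhds h1
    obtain ⟨ε, h3, h4⟩ := (h2.and self_mem_nhdsWithin).exists
    exact ⟨ε, h4, h3⟩
  obtain ⟨n, hn⟩ := exists_nat_one_div_lt hε0
  obtain ⟨r, hr1, hr2⟩ := Real.exists_rat_abs_sub_le_and_den_le β (Nat.succ_pos n)
  have hd : (0 : ℝ) < r.den := by exact_mod_cast r.den_pos
  have hd1 : (1 : ℝ) ≤ r.den := by exact_mod_cast r.den_pos
  have hn0 : (0 : ℝ) ≤ n := Nat.cast_nonneg n
  have hr2' : (r.den : ℝ) ≤ n + 1 := by exact_mod_cast hr2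
  push_cast at hr1
  refine ⟨r, ?_, ?_⟩
  · by_contra hc
    have h2 := hε r (not_lt.1 hc)
    rw [Real.dist_eq] at h2
    have h3 : 1 / (((n : ℝ) + 1 + 1) * r.den) ≤ 1 / ((n : ℝ) + 1) := by
      apply one_div_le_one_div_of_le (by positivity)
      nlinarith
    linarith
  · refine hr1.trans ?_
    apply one_div_le_one_div_of_le (by positivity)
    nlinarith

lemma norm_le_abs_sub (z : ℝ) (m : ℤ) : ‖(z : UnitAddCircle)‖ ≤ |z - m| := by
  rw [UnitAddCircle.norm_eq]
  exact round_le z m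

lemma approx_mul {β : ℝ} {r : ℚ} (hr : |β - r| ≤ 1 / (r.den : ℝ) ^ 2) {j : ℕ} (hj : j < r.den) :
    |r.den * (j * β) - j * r.num| ≤ 1 := by
  have hd : (0 : ℝ) < r.den := by exact_mod_cast r.den_pos
  have hrn : (r : ℝ) * r.den = r.num := by exact_mod_cast Rat.mul_den_eq_num r
  have h1 : (r.den : ℝ) * (j * β) - j * r.num = r.den * j * (β - r) := by
    rw [← hrn]; ring
  rw [h1, abs_mul, abs_of_nonneg (by positivity)]
  have hj' : (j : ℝ) ≤ r.den := by exact_mod_cast hj.le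
  calc (r.den : ℝ) * j * |β - r| ≤ r.den * r.den * (1 / (r.den : ℝ) ^ 2) := by
        gcongr
    _ = 1 := by field_simp

/-- the orbit segment of length `q` is `2 / q`-dense -/
lemma exists_near {β : ℝ} {r : ℚ} (hr : |β - r| ≤ 1 / (r.den : ℝ) ^ 2) (s t : ℝ) :
    ∃ j < r.den, ‖((s + j * β - t : ℝ) : UnitAddCircle)‖ ≤ 2 / r.den := by
  have hd : (0 : ℝ) < r.den := by exact_mod_cast r.den_pos
  have hdz : (0 : ℤ) < r.den := by exact_mod_cast r.den_pos
  set q : ℕ := r.den with hq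
  set n : ℤ := ⌊(q : ℝ) * s⌋ - ⌊(q : ℝ) * t⌋ with hn
  have hcop : IsCoprime r.num (q : ℤ) := by
    rw [Int.isCoprime_iff_gcd_eq_one]
    exact r.reduced
  obtain ⟨a, b, hab⟩ := hcop
  obtain ⟨j, hj1, m, hm⟩ : ∃ j : ℕ, j < q ∧ ∃ m : ℤ, n + j * r.num = q * m := by
    refine ⟨((-n * a) % q).toNat, ?_, ?_⟩
    · have := Int.emod_lt_of_pos (-n * a) hdz
      have := Int.emod_nonneg (-n * a) hdz.ne'
      omega
    · rw [Int.toNat_of_nonneg (Int.emod_nonneg _ hdz.ne')]
      refine ⟨n * b - (-n * a) / q * r.num, ?_⟩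
      have h1 := Int.emod_add_mul_ediv (-n * a) q
      have h2 : (-n * a) % q = -n * a - q * ((-n * a) / q) := by linarith
      rw [h2]
      linear_combination (-n) * hab
  refine ⟨j, hj1, (norm_le_abs_sub _ m).trans ?_⟩
  rw [le_div_iff₀ hd]
  have h1 := approx_mul hr hj1
  have h2 : (n : ℝ) + j * r.num = q * m := by exact_mod_cast hm
  have h3 : |(s + j * β - t - m) * q| = |(q * s - ⌊(q : ℝ) * s⌋) - (q * t - ⌊(q : ℝ) * t⌋)
      + (q * (j * β) - j * r.num)| := by
    congr 1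
    have : (n : ℝ) = ⌊(q : ℝ) * s⌋ - ⌊(q : ℝ) * t⌋ := by rw [hn]; push_cast; ring
    rw [this] at h2
    linear_combination h2
  have h4 : |s + j * β - t - m| * q = |(s + j * β - t - m) * q| := by
    rw [abs_mul, abs_of_pos hd]
  rw [h4, h3]
  have f1 := Int.floor_le ((q : ℝ) * s)
  have f2 := Int.lt_floor_add_one ((q : ℝ) * s)
  have f3 := Int.floor_le ((q : ℝ) * t)
  have f4 := Int.lt_floor_add_one ((q : ℝ) * t)
  have h5 := abs_le.1 h1
  rw [abs_le]
  constructor <;> linarith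

/-- the orbit segment of length `q` visits an arc of radius `4 / q` at most `11` times -/
lemma card_near {β : ℝ} {r : ℚ} (hr : |β - r| ≤ 1 / (r.den : ℝ) ^ 2) (s t : ℝ) :
    ((Finset.range r.den).filter
      fun j : ℕ => ‖((s + (j : ℝ) * β - t : ℝ) : UnitAddCircle)‖ ≤ 4 / r.den).card ≤ 11 := by
  classical
  have hd : (0 : ℝ) < r.den := by exact_mod_cast r.den_pos
  set q : ℕ := r.den with hq
  set n : ℤ := ⌊(q : ℝ) * s⌋ - ⌊(q : ℝ) * t⌋ with hn
  have hcop : IsCoprime r.num (q : ℤ) := by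
    rw [Int.isCoprime_iff_gcd_eq_one]
    exact r.reduced
  let f : ℕ → ℤ := fun j => n + j * r.num - q * round (s + (j : ℝ) * β - t)
  have hcard : (Finset.Icc (-5 : ℤ) 5).card = 11 := by decide
  rw [← hcard]
  apply Finset.card_le_card_of_injOn f
  · intro j hj
    rw [Finset.mem_coe, Finset.mem_filter, Finset.mem_range] at hj
    obtain ⟨hj1, hj2⟩ := hj
    rw [UnitAddCircle.norm_eq, le_div_iff₀ hd] at hj2
    set m := round (s + (j : ℝ) * β - t) with hm
    have h1 := approx_mul hr hj1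
    have h4 : |s + j * β - t - m| * q = |(s + j * β - t - m) * q| := by
      rw [abs_mul, abs_of_pos hd]
    rw [h4] at hj2
    have f1 := Int.floor_le ((q : ℝ) * s)
    have f2 := Int.lt_floor_add_one ((q : ℝ) * s)
    have f3 := Int.floor_le ((q : ℝ) * t)
    have f4 := Int.lt_floor_add_one ((q : ℝ) * t)
    have h5 := abs_le.1 h1
    have h6 := abs_le.1 hj2
    have h7 : ((f j : ℤ) : ℝ) = (s + j * β - t - m) * q - (q * s - ⌊(q : ℝ) * s⌋)
        + (q * t - ⌊(q : ℝ) * t⌋) - (q * (j * β) - j * r.num) := by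
      simp only [f, hn]
      push_cast
      ring
    have h8 : ((f j : ℤ) : ℝ) < 6 := by rw [h7]; linarith
    have h9 : (-6 : ℝ) < ((f j : ℤ) : ℝ) := by rw [h7]; linarith
    have h8' : f j < 6 := by exact_mod_cast h8
    have h9' : -6 < f j := by exact_mod_cast h9
    rw [Finset.mem_coe, Finset.mem_Icc]
    omega
  · intro j hj j' hj' hjj
    rw [Finset.mem_coe, Finset.mem_filter, Finset.mem_range] at hj hj'
    simp only [f] at hjj
    have h1 : (q : ℤ) ∣ r.num * ((j : ℤ) - j') :=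
      ⟨round (s + (j : ℝ) * β - t) - round (s + (j' : ℝ) * β - t), by linear_combination hjj⟩
    have h2 : (q : ℤ) ∣ (j : ℤ) - j' := hcop.symm.dvd_of_dvd_mul_left h1
    have h3 := Int.eq_zero_of_abs_lt_dvd h2 (by
      rw [abs_lt]; constructor <;> omega)
    omega

end Pool.Agent.Q289.QW
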