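import Pool.Agent.Q289.QW.Count

set_option autoImplicit false

/-!
The density theorem for finite measures on the circle, by the embedding in the plane.
-/

namespace Pool.Agent.Q289.QW

open MeasureTheory Set Filter Topology Metric

/-- the embedding of the circle in the plane -/
noncomputable def emb (y : UnitAddCircle) : ℂ := (AddCircle.toCircle y : ℂ)

lemma emb_continuous : Continuous emb :=
  continuous_subtype_val.comp AddCircle.continuous_toCircle

lemma emb_injective : Function.Injective emb := fun _ _ h =>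
  AddCircle.injective_toCircle one_ne_zero (Subtype.ext h)

lemma emb_measurableEmbedding : MeasurableEmbedding emb :=
  (emb_continuous.isClosedEmbedding emb_injective).measurableEmbedding

lemma emb_dist_sub (x y : UnitAddCircle) : dist (emb x) (emb y) = ‖emb (x - y) - 1‖ := by
  have h : emb x = emb (x - y) * emb y := by
    unfold emb
    rw [← Circle.coe_mul, ← AddCircle.toCircle_add, sub_add_cancel]
  rw [dist_eq_norm, h, ← sub_one_mul, norm_mul]
  unfold emb
  rw [Circle.norm_coe, mul_one]

lemma emb_sub_one (z : UnitAddCircle) :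
    4 * ‖z‖ ≤ ‖emb z - 1‖ ∧ ‖emb z - 1‖ ≤ 2 * Real.pi * ‖z‖ := by
  induction z using QuotientAddGroup.induction_on with
  | H t =>
    have h1 : ‖(t : UnitAddCircle)‖ = |t - round t| := UnitAddCircle.norm_eq
    set u := t - round t with hu
    have h2 : emb (t : UnitAddCircle) = Complex.exp (Complex.I * ((2 * Real.pi * u : ℝ) : ℂ)) := by
      have h3 : (t : UnitAddCircle) = ((u : ℝ) : UnitAddCircle) := by
        rw [hu, AddCircle.coe_sub]
        have : ((round t : ℝ) : UnitAddCircle) = 0 := by
          rw [AddCircle.coe_eq_zero_iff]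
          exact ⟨round t, by simp⟩
        rw [this, sub_zero]
      unfold emb
      rw [h3, AddCircle.toCircle_apply_mk, Circle.coe_exp]
      congr 1
      push_cast
      ring
    have h4 : ‖emb (t : UnitAddCircle) - 1‖ = 2 * |Real.sin (Real.pi * u)| := by
      rw [h2, Complex.norm_exp_I_mul_ofReal_sub_one, norm_mul, Real.norm_eq_abs, Real.norm_eq_abs,
        abs_of_pos (by norm_num : (0:ℝ) < 2)]
      congr 3
      ring
    have h5 : |u| ≤ 1 / 2 := abs_sub_round t
    have h6 : |Real.sin (Real.pi * u)| = Real.sin (Real.pi * |u|) := by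
      rcases abs_cases u with ⟨h, h'⟩ | ⟨h, h'⟩
      · rw [h, abs_of_nonneg]
        apply Real.sin_nonneg_of_nonneg_of_le_pi
        · have := Real.pi_pos; positivity
        · rw [h] at h5; nlinarith [Real.pi_pos]
      · rw [h, mul_neg, Real.sin_neg, abs_of_nonpos]
        rw [← neg_nonneg, ← Real.sin_neg]
        apply Real.sin_nonneg_of_nonneg_of_le_pi
        · rw [h] at h5; nlinarith [Real.pi_pos]
        · rw [h] at h5; nlinarith [Real.pi_pos]
    have hu0 := abs_nonneg u
    rw [h1, h4, h6]
    constructor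
    · have h7 := Real.mul_le_sin (x := Real.pi * |u|) (by positivity) (by
        nlinarith [Real.pi_pos])
      have h8 : 2 / Real.pi * (Real.pi * |u|) = 2 * |u| := by
        field_simp
      linarith
    · have h7 := Real.sin_le (x := Real.pi * |u|) (by positivity)
      linarith

lemma emb_near {x y : UnitAddCircle} {ρ : ℝ} (h : dist x y ≤ ρ) :
    dist (emb x) (emb y) ≤ 2 * Real.pi * ρ := by
  rw [emb_dist_sub]
  refine (emb_sub_one _).2.trans ?_
  rw [← dist_eq_norm]
  have := Real.pi_pos
  gcongr

lemma near_emb {x y : UnitAddCircle} {ρ : ℝ} (h : dist (emb x) (emb y) ≤ ρ) :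
    dist x y ≤ ρ / 4 := by
  rw [emb_dist_sub] at h
  have := (emb_sub_one (x - y)).1
  rw [dist_eq_norm]
  linarith

/-- the arc -/
def arc (x : UnitAddCircle) (ρ : ℝ) : Set UnitAddCircle := emb ⁻¹' closedBall (emb x) ρ

lemma arc_measurable (x : UnitAddCircle) (ρ : ℝ) : MeasurableSet (arc x ρ) :=
  emb_continuous.measurable isClosed_closedBall.measurableSet

lemma density {μ : Measure UnitAddCircle} [IsFiniteMeasure μ] {A : Set UnitAddCircle}
    (hA : MeasurableSet A) (h : μ Aᶜ ≠ 0) :
    ∃ x, Tendsto (fun ρ => μ (A ∩ arc x ρ) / μ (arc x ρ)) (𝓝[>] 0) (𝓝 0) := by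
  have hm := emb_measurableEmbedding
  have h1 := Besicovitch.ae_tendsto_measure_inter_div_of_measurableSet (μ.map emb)
    (s := emb '' A) (hm.measurableSet_image.2 hA)
  rw [hm.ae_map_iff] at h1
  obtain ⟨x, hxA, hx⟩ : ∃ x, x ∈ Aᶜ ∧ Tendsto (fun r ↦ (μ.map emb) (emb '' A ∩ closedBall (emb x) r)
      / (μ.map emb) (closedBall (emb x) r)) (𝓝[>] 0) (𝓝 ((emb '' A).indicator 1 (emb x))) := by
    by_contra hc
    push Not at hc
    apply h
    have h2 : Aᶜ ⊆ {x | ¬ Tendsto (fun r ↦ (μ.map emb) (emb '' A ∩ closedBall (emb x) r)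
      / (μ.map emb) (closedBall (emb x) r)) (𝓝[>] 0) (𝓝 ((emb '' A).indicator 1 (emb x)))} :=
      fun x hx => hc x hx
    exact measure_mono_null h2 h1
  refine ⟨x, ?_⟩
  have h3 : (emb '' A).indicator (1 : ℂ → ENNReal) (emb x) = 0 := by
    rw [indicator_of_notMem]
    rintro ⟨y, hy, hyx⟩
    exact hxA (emb_injective hyx ▸ hy)
  rw [h3] at hx
  refine hx.congr fun ρ => ?_
  rw [hm.map_apply, hm.map_apply, preimage_inter, preimage_image_eq _ emb_injective]
  rfl

end Pool.Agent.Q289.QW
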