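import Pool.Agent.Q289.QW.Emb

set_option autoImplicit false

/-!
Conformal measures of rotations with a Lipschitz cocycle: ergodicity and uniqueness.
-/

namespace Pool.Agent.Q289.QW

open MeasureTheory Set Filter Topology Metric
open scoped ENNReal NNReal

/-- `μ` is conformal: the image of `μ` by the rotation has the density `exp g`. -/
def Conf (β : ℝ) (g : UnitAddCircle → ℝ) (μ : Measure UnitAddCircle) : Prop :=
  ∀ φ : UnitAddCircle → ℝ≥0∞, Measurable φ →
    ∫⁻ y, φ (y + (β : UnitAddCircle)) ∂μ = ∫⁻ y, φ y * ENNReal.ofReal (Real.exp (g y)) ∂μ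

/-- the Birkhoff sums -/
noncomputable def GG (β : ℝ) (g : UnitAddCircle → ℝ) : ℕ → UnitAddCircle → ℝ
  | 0 => fun _ => 0
  | j + 1 => fun y => GG β g j y + g (y - (((j : ℝ) * β : ℝ) : UnitAddCircle))

variable {β : ℝ} {g : UnitAddCircle → ℝ}

lemma GG_measurable (hg : Measurable g) (j : ℕ) : Measurable (GG β g j) := by
  induction j with
  | zero => exact measurable_const
  | succ j ih => exact ih.add (hg.comp (measurable_id.sub_const _))

lemma GG_lip {L : ℝ} (hg : ∀ x y, |g x - g y| ≤ L * dist x y) (j : ℕ) (x y : UnitAddCircle) :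
    |GG β g j x - GG β g j y| ≤ j * L * dist x y := by
  induction j with
  | zero => simp [GG]
  | succ j ih =>
    have h1 := hg (x - (((j : ℝ) * β : ℝ) : UnitAddCircle)) (y - (((j : ℝ) * β : ℝ) : UnitAddCircle))
    rw [dist_sub_right] at h1
    have h2 : GG β g (j + 1) x - GG β g (j + 1) y = (GG β g j x - GG β g j y)
      + (g (x - (((j : ℝ) * β : ℝ) : UnitAddCircle)) - g (y - (((j : ℝ) * β : ℝ) : UnitAddCircle))) := by
      simp only [GG]; ring
    rw [h2]
    refine (abs_add_le _ _).trans ?_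
    push_cast
    linarith

lemma Conf.iter {μ : Measure UnitAddCircle} (h : Conf β g μ) (hg : Measurable g) (j : ℕ) :
    ∀ φ : UnitAddCircle → ℝ≥0∞, Measurable φ →
    ∫⁻ y, φ (y + (((j : ℝ) * β : ℝ) : UnitAddCircle)) ∂μ
      = ∫⁻ y, φ y * ENNReal.ofReal (Real.exp (GG β g j y)) ∂μ := by
  induction j with
  | zero => intro φ _; simp [GG]
  | succ j ih =>
    intro φ hφ
    have h1 : ∀ y : UnitAddCircle, φ (y + ((((j + 1 : ℕ) : ℝ) * β : ℝ) : UnitAddCircle))
        = φ ((y + (β : UnitAddCircle)) + (((j : ℝ) * β : ℝ) : UnitAddCircle)) := by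
      intro y
      congr 1
      rw [add_assoc, ← AddCircle.coe_add]
      congr 2
      push_cast
      ring
    simp_rw [h1]
    rw [h (fun y => φ (y + (((j : ℝ) * β : ℝ) : UnitAddCircle)))
      (hφ.comp (measurable_id.add_const _))]
    have h2 := ih (fun z => φ z * ENNReal.ofReal (Real.exp
      (g (z - (((j : ℝ) * β : ℝ) : UnitAddCircle)))))
      (hφ.mul (Real.measurable_exp.comp (hg.comp (measurable_id.sub_const _))).ennreal_ofReal)
    simp only [add_sub_cancel_right] at h2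
    rw [h2]
    refine lintegral_congr fun y => ?_
    rw [GG, Real.exp_add, mul_comm (Real.exp (GG β g j y)), ENNReal.ofReal_mul (Real.exp_pos _).le,
      mul_assoc]

lemma Conf.measure_iter {μ : Measure UnitAddCircle} (h : Conf β g μ) (hg : Measurable g) (j : ℕ)
    {B : Set UnitAddCircle} (hB : MeasurableSet B) :
    μ ((fun y => y + (((j : ℝ) * β : ℝ) : UnitAddCircle)) ⁻¹' B)
      = ∫⁻ y in B, ENNReal.ofReal (Real.exp (GG β g j y)) ∂μ := by
  have h1 := h.iter hg j (B.indicator 1) (measurable_one.indicator hB)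
  have hm : Measurable (fun y : UnitAddCircle => y + (((j : ℝ) * β : ℝ) : UnitAddCircle)) :=
    measurable_id.add_const _
  have h2 : ∀ y : UnitAddCircle, B.indicator (1 : UnitAddCircle → ℝ≥0∞)
      (y + (((j : ℝ) * β : ℝ) : UnitAddCircle))
      = ((fun y => y + (((j : ℝ) * β : ℝ) : UnitAddCircle)) ⁻¹' B).indicator 1 y := by
    intro y
    by_cases hy : y + (((j : ℝ) * β : ℝ) : UnitAddCircle) ∈ B
    · rw [indicator_of_mem hy, indicator_of_mem (by exact hy)]; rfl
    · rw [indicator_of_notMem hy, indicator_of_notMem (by exact hy)]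
  simp_rw [h2] at h1
  rw [lintegral_indicator_one (hm hB)] at h1
  rw [h1, ← lintegral_indicator hB]
  refine lintegral_congr fun y => ?_
  by_cases hy : y ∈ B
  · rw [indicator_of_mem hy, indicator_of_mem hy]; simp
  · rw [indicator_of_notMem hy, indicator_of_notMem hy]; simp

lemma invariant_iter {A : Set UnitAddCircle}
    (hA : (fun y => y + (β : UnitAddCircle)) ⁻¹' A = A) (j : ℕ) :
    (fun y => y + (((j : ℝ) * β : ℝ) : UnitAddCircle)) ⁻¹' A = A := by
  induction j with
  | zero => simp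
  | succ j ih =>
    ext y
    have h1 : y + ((((j + 1 : ℕ) : ℝ) * β : ℝ) : UnitAddCircle)
        = (y + (((j : ℝ) * β : ℝ) : UnitAddCircle)) + (β : UnitAddCircle) := by
      rw [add_assoc, ← AddCircle.coe_add]
      congr 2
      push_cast
      ring
    rw [mem_preimage, h1]
    have h2 := Set.ext_iff.1 hA (y + (((j : ℝ) * β : ℝ) : UnitAddCircle))
    have h3 := Set.ext_iff.1 ih y
    rw [mem_preimage] at h2 h3
    rw [h2, h3]

/-- conformal measures are ergodic -/
lemma Conf.ergodic {μ : Measure UnitAddCircle} [IsFiniteMeasure μ] (h : Conf β g μ)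
    (hβ : Irrational β) {L : ℝ} (hL : 0 ≤ L) (hg : ∀ x y, |g x - g y| ≤ L * dist x y)
    (hgm : Measurable g) {A : Set UnitAddCircle} (hAm : MeasurableSet A)
    (hA : (fun y => y + (β : UnitAddCircle)) ⁻¹' A = A) : μ A = 0 ∨ μ Aᶜ = 0 := by
  by_contra hc
  push Not at hc
  obtain ⟨hA0, hAc⟩ := hc
  obtain ⟨x, hx⟩ := density hAm hAc
  have hfin : μ A ≠ ∞ := measure_ne_top _ _
  set D : ℝ := 4 * L * Real.pi with hD
  have hD0 : 0 ≤ D := by have := Real.pi_pos; positivity
  -- the constant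
  set K : ℝ≥0∞ := ENNReal.ofReal (Real.exp (2 * D)) * (11 * μ univ) with hK
  have hKfin : K ≠ ∞ := by
    rw [hK]
    exact ENNReal.mul_ne_top ENNReal.ofReal_ne_top
      (ENNReal.mul_ne_top (by norm_num) (measure_ne_top _ _))
  -- it suffices to show `μ A ≤ ε * K` for all `ε > 0`
  suffices hs : ∀ ε : ℝ≥0∞, 0 < ε → μ A ≤ ε * K by
    apply hA0
    have h1 : Tendsto (fun ε : ℝ≥0∞ => ε * K) (𝓝[>] 0) (𝓝 0) := by
      have := (ENNReal.Tendsto.mul_const (b := K) (tendsto_id (x := 𝓝 (0 : ℝ≥0∞)))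
        (Or.inr hKfin))
      rw [zero_mul] at this
      exact this.mono_left nhdsWithin_le_nhds
    have h2 := ge_of_tendsto h1 (eventually_nhdsWithin_of_forall fun ε hε => hs ε hε)
    exact le_antisymm h2 (zero_le)
  intro ε hε
  have h1 := hx.eventually_lt_const hε
  rw [eventually_nhdsWithin_iff, Metric.eventually_nhds_iff] at h1
  obtain ⟨δ, hδ, h2⟩ := h1
  obtain ⟨N, hN⟩ := exists_nat_gt (4 * Real.pi / δ)
  obtain ⟨r, hrN, hr⟩ := exists_approx hβ N
  have hpi := Real.pi_pos
  have hd : (0 : ℝ) < r.den := by exact_mod_cast r.den_pos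
  set ρ : ℝ := 4 * Real.pi / r.den with hρ
  have hρ0 : 0 < ρ := by positivity
  have hρδ : ρ < δ := by
    rw [hρ, div_lt_iff₀ hd]
    rw [div_lt_iff₀ hδ] at hN
    have : (N : ℝ) ≤ r.den := by exact_mod_cast hrN.le
    nlinarith
  have h3 : μ (A ∩ arc x ρ) / μ (arc x ρ) < ε := by
    apply h2 _ hρ0
    rw [Real.dist_eq, sub_zero, abs_of_pos hρ0]
    exact hρδ
  have hI : MeasurableSet (arc x ρ) := arc_measurable x ρ
  have h4 : μ (A ∩ arc x ρ) ≤ ε * μ (arc x ρ) := by
    by_cases h0 : μ (arc x ρ) = 0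
    · rw [h0, mul_zero]
      exact (measure_mono inter_subset_right).trans h0.le
    · exact (ENNReal.div_le_iff_le_mul (Or.inl h0) (Or.inl (measure_ne_top _ _))).1 h3.le
  -- points of the arc
  have harc : ∀ y ∈ arc x ρ, dist y x ≤ Real.pi / r.den := by
    intro y hy
    have := near_emb (x := y) (y := x) (ρ := ρ) hy
    rw [hρ] at this
    refine this.trans (le_of_eq ?_)
    field_simp
  have hpi4 : Real.pi ≤ 4 := Real.pi_le_four
  -- distortion
  have hdist : ∀ j < r.den, ∀ y ∈ arc x ρ, |GG β g j y - GG β g j x| ≤ D := by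
    intro j hj y hy
    refine (GG_lip hg j y x).trans ?_
    have h5 := harc y hy
    have hj' : (j : ℝ) ≤ r.den := by exact_mod_cast hj.le
    calc (j : ℝ) * L * dist y x ≤ r.den * L * (Real.pi / r.den) := by gcongr
      _ = L * Real.pi := by field_simp
      _ ≤ D := by rw [hD]; nlinarith [mul_nonneg hL hpi.le]
  -- comparison for one `j`
  have hone : ∀ j < r.den, μ (A ∩ (fun y => y + (((j : ℝ) * β : ℝ) : UnitAddCircle)) ⁻¹' arc x ρ)
      ≤ ENNReal.ofReal (Real.exp (2 * D)) * ε *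
        μ ((fun y => y + (((j : ℝ) * β : ℝ) : UnitAddCircle)) ⁻¹' arc x ρ) := by
    intro j hj
    have h5 : A ∩ (fun y => y + (((j : ℝ) * β : ℝ) : UnitAddCircle)) ⁻¹' arc x ρ
        = (fun y => y + (((j : ℝ) * β : ℝ) : UnitAddCircle)) ⁻¹' (A ∩ arc x ρ) := by
      rw [preimage_inter, invariant_iter hA]
    rw [h5, h.measure_iter hgm j (hAm.inter hI), h.measure_iter hgm j hI]
    have h6 : ∫⁻ y in A ∩ arc x ρ, ENNReal.ofReal (Real.exp (GG β g j y)) ∂μ
        ≤ ENNReal.ofReal (Real.exp (GG β g j x + D)) * μ (A ∩ arc x ρ) := by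
      rw [← setLIntegral_const]
      refine setLIntegral_mono' (hAm.inter hI) fun y hy => ?_
      apply ENNReal.ofReal_le_ofReal
      apply Real.exp_le_exp.2
      have := abs_le.1 (hdist j hj y hy.2)
      linarith
    have h7 : ENNReal.ofReal (Real.exp (GG β g j x - D)) * μ (arc x ρ)
        ≤ ∫⁻ y in arc x ρ, ENNReal.ofReal (Real.exp (GG β g j y)) ∂μ := by
      rw [← setLIntegral_const]
      refine setLIntegral_mono' hI fun y hy => ?_
      apply ENNReal.ofReal_le_ofReal
      apply Real.exp_le_exp.2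
      have := abs_le.1 (hdist j hj y hy)
      linarith
    have h8 : ENNReal.ofReal (Real.exp (GG β g j x + D))
        = ENNReal.ofReal (Real.exp (2 * D)) * ENNReal.ofReal (Real.exp (GG β g j x - D)) := by
      rw [← ENNReal.ofReal_mul (Real.exp_pos _).le, ← Real.exp_add]
      congr 2
      ring
    calc ∫⁻ y in A ∩ arc x ρ, ENNReal.ofReal (Real.exp (GG β g j y)) ∂μ
        ≤ ENNReal.ofReal (Real.exp (GG β g j x + D)) * μ (A ∩ arc x ρ) := h6
      _ ≤ ENNReal.ofReal (Real.exp (GG β g j x + D)) * (ε * μ (arc x ρ)) := by gcongr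
      _ = ENNReal.ofReal (Real.exp (2 * D)) * ε *
          (ENNReal.ofReal (Real.exp (GG β g j x - D)) * μ (arc x ρ)) := by rw [h8]; ring
      _ ≤ _ := by gcongr
  -- covering
  have hcov : A ⊆ ⋃ j ∈ Finset.range r.den,
      (A ∩ (fun y => y + (((j : ℝ) * β : ℝ) : UnitAddCircle)) ⁻¹' arc x ρ) := by
    intro y hy
    obtain ⟨s, rfl⟩ := QuotientAddGroup.mk_surjective y
    obtain ⟨t, rfl⟩ := QuotientAddGroup.mk_surjective x
    obtain ⟨j, hj, hjn⟩ := exists_near hr s t
    simp only [mem_iUnion]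
    refine ⟨j, Finset.mem_range.2 hj, hy, ?_⟩
    rw [mem_preimage]
    unfold arc
    rw [mem_preimage, mem_closedBall]
    have h5 : dist ((s : UnitAddCircle) + (((j : ℝ) * β : ℝ) : UnitAddCircle)) (t : UnitAddCircle)
        ≤ 2 / r.den := by
      rw [dist_eq_norm, ← AddCircle.coe_add, ← AddCircle.coe_sub]
      exact hjn
    refine (emb_near h5).trans (le_of_eq ?_)
    rw [hρ]
    ring
  -- multiplicity
  have hmult : ∑ j ∈ Finset.range r.den,
      μ ((fun y => y + (((j : ℝ) * β : ℝ) : UnitAddCircle)) ⁻¹' arc x ρ) ≤ 11 * μ univ := by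
    have hmeas : ∀ j : ℕ, MeasurableSet
        ((fun y => y + (((j : ℝ) * β : ℝ) : UnitAddCircle)) ⁻¹' arc x ρ) := fun j =>
      (measurable_id.add_const _) hI
    have h5 : ∑ j ∈ Finset.range r.den,
        μ ((fun y => y + (((j : ℝ) * β : ℝ) : UnitAddCircle)) ⁻¹' arc x ρ)
        = ∫⁻ y, ∑ j ∈ Finset.range r.den,
          ((fun y => y + (((j : ℝ) * β : ℝ) : UnitAddCircle)) ⁻¹' arc x ρ).indicator 1 y ∂μ := by
      rw [lintegral_finsetSum' _ fun j _ => (measurable_one.indicator (hmeas j)).aemeasurable]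
      refine Finset.sum_congr rfl fun j _ => ?_
      rw [lintegral_indicator_one (hmeas j)]
    rw [h5, ← lintegral_const]
    refine lintegral_mono fun y => ?_
    obtain ⟨s, rfl⟩ := QuotientAddGroup.mk_surjective y
    obtain ⟨t, rfl⟩ := QuotientAddGroup.mk_surjective x
    classical
    have h6 : ∀ j ∈ Finset.range r.den,
        ((fun y => y + (((j : ℝ) * β : ℝ) : UnitAddCircle)) ⁻¹'
          arc (t : UnitAddCircle) ρ).indicator (1 : UnitAddCircle → ℝ≥0∞) (s : UnitAddCircle)
        ≤ if ‖((s + (j : ℝ) * β - t : ℝ) : UnitAddCircle)‖ ≤ 4 / r.den then 1 else 0 := by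
      intro j _
      by_cases hj : (s : UnitAddCircle) ∈ (fun y => y + (((j : ℝ) * β : ℝ) : UnitAddCircle)) ⁻¹'
          arc (t : UnitAddCircle) ρ
      · rw [indicator_of_mem hj, if_pos]
        · rfl
        · have h7 := harc _ hj
          simp only at h7
          rw [dist_eq_norm, ← AddCircle.coe_add, ← AddCircle.coe_sub] at h7
          refine h7.trans ?_
          gcongr
      · rw [indicator_of_notMem hj]
        exact zero_le
    refine (Finset.sum_le_sum h6).trans ?_
    rw [Finset.sum_ite, Finset.sum_const_zero, add_zero, Finset.sum_const, nsmul_eq_mul, mul_one]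
    exact_mod_cast card_near hr s t
  calc μ A ≤ μ (⋃ j ∈ Finset.range r.den,
      (A ∩ (fun y => y + (((j : ℝ) * β : ℝ) : UnitAddCircle)) ⁻¹' arc x ρ)) := measure_mono hcov
    _ ≤ ∑ j ∈ Finset.range r.den,
      μ (A ∩ (fun y => y + (((j : ℝ) * β : ℝ) : UnitAddCircle)) ⁻¹' arc x ρ) :=
        measure_biUnion_finset_le _ _
    _ ≤ ∑ j ∈ Finset.range r.den, ENNReal.ofReal (Real.exp (2 * D)) * ε *
        μ ((fun y => y + (((j : ℝ) * β : ℝ) : UnitAddCircle)) ⁻¹' arc x ρ) :=
        Finset.sum_le_sum fun j hj => hone j (Finset.mem_range.1 hj)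
    _ = ENNReal.ofReal (Real.exp (2 * D)) * ε * ∑ j ∈ Finset.range r.den,
        μ ((fun y => y + (((j : ℝ) * β : ℝ) : UnitAddCircle)) ⁻¹' arc x ρ) := by
        rw [Finset.mul_sum]
    _ ≤ ENNReal.ofReal (Real.exp (2 * D)) * ε * (11 * μ univ) := by gcongr
    _ = ε * K := by rw [hK]; ring

end Pool.Agent.Q289.QW
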