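import Pool.Agent.Q289.QW.Uniq

set_option autoImplicit false

/-!
The flux of a stationary measure is a multiple of the Lebesgue measure.
-/

namespace Pool.Agent.Q289.QW

open MeasureTheory Set Filter Topology Metric
open scoped ENNReal NNReal

variable {β : ℝ}

lemma intg {E : Type*} [NormedAddCommGroup E] (ν : Measure UnitAddCircle) [IsFiniteMeasure ν]
    {f : UnitAddCircle → E} (hf : Continuous f) : Integrable f ν :=
  hf.integrable_of_hasCompactSupport (HasCompactSupport.of_compactSpace _)

lemma fourier_ne_one (hβ : Irrational β) {n : ℤ} (hn : n ≠ 0) :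
    fourier n (β : UnitAddCircle) ≠ 1 := by
  intro h
  rw [fourier_coe_apply, Complex.exp_eq_one_iff] at h
  obtain ⟨m, hm⟩ := h
  have hpi : (2 * Real.pi * Complex.I : ℂ) ≠ 0 := by
    simp [Real.pi_ne_zero, Complex.I_ne_zero]
  have h1 : (n : ℂ) * β = m := by
    have h2 : (2 * Real.pi * Complex.I : ℂ) * (n * β) = (2 * Real.pi * Complex.I) * m := by
      have : (2 * Real.pi * Complex.I * n * β / (1 : ℝ) : ℂ) = m * (2 * Real.pi * Complex.I) := hm
      simp only [Complex.ofReal_one, div_one] at this
      linear_combination this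
    exact mul_left_cancel₀ hpi h2
  have h3 : (n : ℝ) * β = m := by exact_mod_cast h1
  exact (hβ.intCast_mul hn).ne_int m h3

/-- the rotation as a continuous map -/
def rot (β : ℝ) : C(UnitAddCircle, UnitAddCircle) := ⟨fun y => y + (β : UnitAddCircle), by fun_prop⟩

/-- an invariant functional is a multiple of the Lebesgue integral -/
lemma functional_zero (hβ : Irrational β) (Λ : C(UnitAddCircle, ℂ) →L[ℂ] ℂ)
    (h : ∀ F : C(UnitAddCircle, ℂ), Λ (F.comp (rot β)) = Λ F) (h1 : Λ 1 = 0) (F) : Λ F = 0 := by
  have h2 : ∀ n : ℤ, Λ (fourier n) = 0 := by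
    intro n
    by_cases hn : n = 0
    · rw [hn]
      have : (fourier 0 : C(UnitAddCircle, ℂ)) = 1 := by
        ext y; simp
      rw [this, h1]
    · have h3 := h (fourier n)
      have h4 : (fourier n : C(UnitAddCircle, ℂ)).comp (rot β)
          = (fourier n (β : UnitAddCircle)) • (fourier n : C(UnitAddCircle, ℂ)) := by
        ext y
        simp only [ContinuousMap.comp_apply, rot, ContinuousMap.coe_mk, ContinuousMap.smul_apply,
          smul_eq_mul, fourier_apply, smul_add, AddCircle.toCircle_add, Circle.coe_mul]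
        ring
      rw [h4, map_smul, smul_eq_mul] at h3
      have h5 : (fourier n (β : UnitAddCircle) - 1) * Λ (fourier n) = 0 := by
        rw [sub_mul, h3]; ring
      rcases mul_eq_zero.1 h5 with h6 | h6
      · exact absurd (sub_eq_zero.1 h6) (fourier_ne_one hβ hn)
      · exact h6
  have h3 : (Submodule.span ℂ (range (fourier : ℤ → C(UnitAddCircle, ℂ)))).topologicalClosure
      ≤ LinearMap.ker (Λ : C(UnitAddCircle, ℂ) →ₗ[ℂ] ℂ) := by
    apply Submodule.topologicalClosure_minimal
    · rw [Submodule.span_le]
      rintro _ ⟨n, rfl⟩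
      exact h2 n
    · exact Λ.isClosed_ker
  rw [span_fourier_closure_eq_top] at h3
  exact h3 (Submodule.mem_top (x := F))

/-- `ν` is stationary for the walk with the jump probabilities `p y` to `y + β` and `q y` to
`y - β` (and the probability `1 - p y - q y` of staying at `y`). -/
def Stat (β : ℝ) (p q : UnitAddCircle → ℝ) (ν : Measure UnitAddCircle) : Prop :=
  ∀ φ : C(UnitAddCircle, ℝ), ∫ y, (p y * (φ (y + (β : UnitAddCircle)) - φ y)
    + q y * (φ (y - (β : UnitAddCircle)) - φ y)) ∂ν = 0

variable {p q : UnitAddCircle → ℝ} {ν : Measure UnitAddCircle}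

lemma Stat.complex [IsFiniteMeasure ν] (h : Stat β p q ν) (hp : Continuous p) (hq : Continuous q)
    (F : C(UnitAddCircle, ℂ)) :
    ∫ y, ((p y : ℂ) * (F (y + (β : UnitAddCircle)) - F y)
      + (q y : ℂ) * (F (y - (β : UnitAddCircle)) - F y)) ∂ν = 0 := by
  have hc : Continuous fun y => ((p y : ℂ) * (F (y + (β : UnitAddCircle)) - F y)
      + (q y : ℂ) * (F (y - (β : UnitAddCircle)) - F y)) := by fun_prop
  have hi := intg ν hc
  apply Complex.ext
  · have h1 := h ⟨fun y => (F y).re, by fun_prop⟩
    have h2 := integral_re (𝕜 := ℂ) hi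
    simp only [RCLike.re_eq_complex_re] at h2
    rw [← h2, Complex.zero_re, ← h1]
    refine integral_congr_ae (Eventually.of_forall fun y => ?_)
    simp
  · have h1 := h ⟨fun y => (F y).im, by fun_prop⟩
    have h2 := integral_im (𝕜 := ℂ) hi
    simp only [RCLike.im_eq_complex_im] at h2
    rw [← h2, Complex.zero_im, ← h1]
    refine integral_congr_ae (Eventually.of_forall fun y => ?_)
    simp

/-- the flux functional -/
noncomputable def flux (β : ℝ) (p q : UnitAddCircle → ℝ) (hp : Continuous p) (hq : Continuous q)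
    (ν : Measure UnitAddCircle) [IsFiniteMeasure ν] (c : ℂ) : C(UnitAddCircle, ℂ) →L[ℂ] ℂ :=
  LinearMap.mkContinuousOfExistsBound
    { toFun := fun F => ∫ y, ((p y : ℂ) * F y - (q y : ℂ) * F (y - (β : UnitAddCircle))) ∂ν
        - c * ∫ y, F y
      map_add' := by
        intro F F'
        have h1 : Continuous fun y => ((p y : ℂ) * F y - (q y : ℂ) * F (y - (β : UnitAddCircle))) := by
          fun_prop
        have h2 : Continuous fun y =>
            ((p y : ℂ) * F' y - (q y : ℂ) * F' (y - (β : UnitAddCircle))) := by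
          fun_prop
        have h3 : ∀ y, ((p y : ℂ) * (F + F') y - (q y : ℂ) * (F + F') (y - (β : UnitAddCircle)))
            = ((p y : ℂ) * F y - (q y : ℂ) * F (y - (β : UnitAddCircle)))
              + ((p y : ℂ) * F' y - (q y : ℂ) * F' (y - (β : UnitAddCircle))) := by
          intro y; simp only [ContinuousMap.add_apply]; ring
        simp_rw [h3]
        rw [integral_add (intg ν h1) (intg ν h2)]
        have h4 : ∀ y, (F + F') y = F y + F' y := fun y => rfl
        simp_rw [h4]
        rw [integral_add (intg _ F.continuous) (intg _ F'.continuous)]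
        ring
      map_smul' := by
        intro a F
        have h3 : ∀ y, ((p y : ℂ) * (a • F) y - (q y : ℂ) * (a • F) (y - (β : UnitAddCircle)))
            = a * ((p y : ℂ) * F y - (q y : ℂ) * F (y - (β : UnitAddCircle))) := by
          intro y; simp only [ContinuousMap.smul_apply, smul_eq_mul]; ring
        simp_rw [h3]
        have h4 : ∀ y, (a • F) y = a * F y := fun y => rfl
        simp_rw [h4]
        rw [integral_const_mul, integral_const_mul, RingHom.id_apply, smul_eq_mul]
        ring }
    (by
      obtain ⟨P, hP⟩ := (isCompact_univ (X := UnitAddCircle)).exists_bound_of_continuousOn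
        hp.continuousOn
      obtain ⟨Q, hQ⟩ := (isCompact_univ (X := UnitAddCircle)).exists_bound_of_continuousOn
        hq.continuousOn
      refine ⟨(P + Q) * ν.real univ + ‖c‖ * 1, fun F => ?_⟩
      change ‖∫ y, ((p y : ℂ) * F y - (q y : ℂ) * F (y - (β : UnitAddCircle))) ∂ν
        - c * ∫ y, F y‖ ≤ _
      have h1 : ‖∫ y, ((p y : ℂ) * F y - (q y : ℂ) * F (y - (β : UnitAddCircle))) ∂ν‖
          ≤ (P + Q) * ‖F‖ * ν.real univ := by
        apply norm_integral_le_of_norm_le_const
        refine Eventually.of_forall fun y => ?_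
        refine (norm_sub_le _ _).trans ?_
        rw [norm_mul, norm_mul, Complex.norm_real, Complex.norm_real]
        have a1 := hP y (mem_univ _)
        have a2 := hQ y (mem_univ _)
        have a3 := F.norm_coe_le_norm y
        have a4 := F.norm_coe_le_norm (y - (β : UnitAddCircle))
        have a5 := norm_nonneg (p y)
        have a6 := norm_nonneg (q y)
        have a7 := norm_nonneg F
        have a8 := mul_le_mul a1 a3 (norm_nonneg _) (a5.trans a1)
        have a9 := mul_le_mul a2 a4 (norm_nonneg _) (a6.trans a2)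
        linarith
      have h2 : ‖∫ y, F y‖ ≤ ‖F‖ * (volume : Measure UnitAddCircle).real univ := by
        apply norm_integral_le_of_norm_le_const
        exact Eventually.of_forall fun y => F.norm_coe_le_norm y
      have h3 : (volume : Measure UnitAddCircle).real univ = 1 := by
        simp [Measure.real]
      rw [h3, mul_one] at h2
      refine (norm_sub_le _ _).trans ?_
      rw [norm_mul]
      have := mul_le_mul_of_nonneg_left h2 (norm_nonneg c)
      linarith)

lemma flux_apply (hp : Continuous p) (hq : Continuous q)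
    [IsFiniteMeasure ν] (c : ℂ) (F : C(UnitAddCircle, ℂ)) : flux β p q hp hq ν c F =
      ∫ y, ((p y : ℂ) * F y - (q y : ℂ) * F (y - (β : UnitAddCircle))) ∂ν - c * ∫ y, F y := rfl

/-- the flux of a stationary measure is a multiple of the Lebesgue measure -/
lemma Stat.flux_eq [IsFiniteMeasure ν] (h : Stat β p q ν) (hβ : Irrational β) (hp : Continuous p)
    (hq : Continuous q) : ∃ c : ℝ, ∀ φ : C(UnitAddCircle, ℝ),
      ∫ y, p y * φ y ∂ν = ∫ y, q y * φ (y - (β : UnitAddCircle)) ∂ν + c * ∫ y, φ y := by
  set c : ℝ := ∫ y, (p y - q y) ∂ν with hc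
  have hvol : (volume : Measure UnitAddCircle).real univ = 1 := by simp [Measure.real]
  have h0 : ∀ F, flux β p q hp hq ν c F = 0 := by
    apply functional_zero hβ
    · intro F
      rw [flux_apply, flux_apply]
      have h1 : ∫ y, (F.comp (rot β)) y = ∫ y, F y := by
        have := integral_add_right_eq_self (μ := (volume : Measure UnitAddCircle))
          (fun y => F y) (β : UnitAddCircle)
        exact this
      rw [h1]
      congr 1
      have h2 := h.complex hp hq F
      have h3 : Continuous fun y => ((p y : ℂ) * F y - (q y : ℂ) * F (y - (β : UnitAddCircle))) := by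
        fun_prop
      have h4 : Continuous fun y => ((p y : ℂ) * (F.comp (rot β)) y
          - (q y : ℂ) * (F.comp (rot β)) (y - (β : UnitAddCircle))) := by
        fun_prop
      rw [← sub_eq_zero, ← integral_sub (intg ν h4) (intg ν h3), ← h2]
      refine integral_congr_ae (Eventually.of_forall fun y => ?_)
      simp only [ContinuousMap.comp_apply, rot, ContinuousMap.coe_mk, sub_add_cancel]
      ring
    · rw [flux_apply]
      have h1 : ∫ y, (1 : C(UnitAddCircle, ℂ)) y = 1 := by
        simp only [ContinuousMap.one_apply, integral_const, hvol, one_smul]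
      rw [h1, hc]
      have h2 : ∫ y, ((p y : ℂ) * (1 : C(UnitAddCircle, ℂ)) y
          - (q y : ℂ) * (1 : C(UnitAddCircle, ℂ)) (y - (β : UnitAddCircle))) ∂ν
          = ((∫ y, (p y - q y) ∂ν : ℝ) : ℂ) := by
        rw [← integral_complex_ofReal]
        refine integral_congr_ae (Eventually.of_forall fun y => ?_)
        simp
      rw [h2]
      ring
  refine ⟨c, fun φ => ?_⟩
  have h1 := h0 ⟨fun y => (φ y : ℂ), by fun_prop⟩
  rw [flux_apply] at h1
  simp only [ContinuousMap.coe_mk] at h1
  have h2 : ∫ y, ((p y : ℂ) * (φ y : ℂ) - (q y : ℂ) * (φ (y - (β : UnitAddCircle)) : ℂ)) ∂ν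
      = ((∫ y, (p y * φ y - q y * φ (y - (β : UnitAddCircle))) ∂ν : ℝ) : ℂ) := by
    rw [← integral_complex_ofReal]
    refine integral_congr_ae (Eventually.of_forall fun y => ?_)
    simp
  rw [h2, integral_complex_ofReal] at h1
  have h3 : ∫ y, (p y * φ y - q y * φ (y - (β : UnitAddCircle))) ∂ν - c * ∫ y, φ y = 0 := by
    exact_mod_cast h1
  rw [integral_sub (intg ν (by fun_prop)) (intg ν (by fun_prop))] at h3
  linarith

end Pool.Agent.Q289.QW
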