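import Pool.Agent.Q289.QW.Path

set_option autoImplicit false

/-!
The law of the chain on the path space (theorem of Ionescu-Tulcea).
-/

namespace Pool.Agent.Q289.QW

open MeasureTheory Set Filter Topology Metric ProbabilityTheory Preorder
open scoped ENNReal NNReal

/-- The transition kernel. -/
noncomputable def kern (α : ℝ) (p : C(UnitAddCircle, ℝ)) : Kernel UnitAddCircle UnitAddCircle where
  toFun y := ENNReal.ofReal (p y) • Measure.dirac (y + (α : UnitAddCircle))
    + ENNReal.ofReal (1 - p y) • Measure.dirac (y - (α : UnitAddCircle))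
  measurable' := by
    refine Measure.measurable_of_measurable_coe _ fun s hs => ?_
    simp only [Measure.coe_add, Measure.coe_smul, Pi.add_apply, Pi.smul_apply, smul_eq_mul,
      Measure.dirac_apply' _ hs]
    have h1 : Measurable fun y : UnitAddCircle => s.indicator (1 : UnitAddCircle → ℝ≥0∞)
        (y + (α : UnitAddCircle)) :=
      (measurable_one.indicator hs).comp (measurable_id.add_const _)
    have h2 : Measurable fun y : UnitAddCircle => s.indicator (1 : UnitAddCircle → ℝ≥0∞)
        (y - (α : UnitAddCircle)) :=
      (measurable_one.indicator hs).comp (measurable_id.sub_const _)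
    have h3 : Measurable fun y : UnitAddCircle => ENNReal.ofReal (p y) :=
      p.continuous.measurable.ennreal_ofReal
    have h4 : Measurable fun y : UnitAddCircle => ENNReal.ofReal (1 - p y) :=
      (measurable_const.sub p.continuous.measurable).ennreal_ofReal
    exact (h3.mul h1).add (h4.mul h2)

lemma kern_apply (α : ℝ) (p : C(UnitAddCircle, ℝ)) (y : UnitAddCircle) :
    kern α p y = ENNReal.ofReal (p y) • Measure.dirac (y + (α : UnitAddCircle))
    + ENNReal.ofReal (1 - p y) • Measure.dirac (y - (α : UnitAddCircle)) := rfl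

variable {α : ℝ} {p : C(UnitAddCircle, ℝ)}

lemma kern_markov (α : ℝ) {p : C(UnitAddCircle, ℝ)} (hp : ∀ y, 0 < p y ∧ p y < 1) :
    IsMarkovKernel (kern α p) := by
  constructor
  intro y
  constructor
  rw [kern_apply, Measure.add_apply, Measure.smul_apply, Measure.smul_apply, measure_univ,
    measure_univ, smul_eq_mul, smul_eq_mul, mul_one, mul_one, ← ENNReal.ofReal_add (hp y).1.le
    (by have := (hp y).2; linarith)]
  simp

/-- the kernels for the theorem of Ionescu-Tulcea -/
noncomputable def steps (α : ℝ) (p : C(UnitAddCircle, ℝ)) (n : ℕ) :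
    Kernel ((_i : Finset.Iic n) → UnitAddCircle) UnitAddCircle :=
  (kern α p).comap (fun x => x ⟨n, Finset.mem_Iic.2 le_rfl⟩) (measurable_pi_apply _)

lemma steps_markov (α : ℝ) {p : C(UnitAddCircle, ℝ)} (hp : ∀ y, 0 < p y ∧ p y < 1) (n : ℕ) :
    IsMarkovKernel (steps α p n) := by
  have := kern_markov α hp
  unfold steps
  infer_instance

/-- The law of the chain with the initial law `ν` on the path space. -/
noncomputable def chainLaw (α : ℝ) (p : C(UnitAddCircle, ℝ)) (hp : ∀ y, 0 < p y ∧ p y < 1)
    (ν : Measure UnitAddCircle) : Measure Pa :=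
  haveI := steps_markov α hp
  Kernel.trajMeasure (X := fun _ => UnitAddCircle) ν (steps α p)

lemma kern_integral {p : C(UnitAddCircle, ℝ)} (hp : ∀ y, 0 < p y ∧ p y < 1)
    (g : C(UnitAddCircle, ℝ)) (y : UnitAddCircle) : ∫ z, g z ∂(kern α p y) = op α p g y := by
  rw [kern_apply, integral_add_measure ((intg _ g.continuous).smul_measure ENNReal.ofReal_ne_top)
      ((intg _ g.continuous).smul_measure ENNReal.ofReal_ne_top), integral_smul_measure,
      integral_smul_measure, integral_dirac, integral_dirac, op_apply,
      ENNReal.toReal_ofReal (hp y).1.le, ENNReal.toReal_ofReal (by have := (hp y).2; linarith)]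
  rfl

theorem chainLike (α : ℝ) {p : C(UnitAddCircle, ℝ)} (hp : ∀ y, 0 < p y ∧ p y < 1)
    (ν : Measure UnitAddCircle) [IsProbabilityMeasure ν] :
    ChainLike α p ν (chainLaw α p hp ν) := by
  have hM := steps_markov α hp
  have hprob : IsProbabilityMeasure (chainLaw α p hp ν) := by
    unfold chainLaw; infer_instance
  refine ⟨hprob, ?_, ?_⟩
  · -- the initial law
    have h1 : (chainLaw α p hp ν).map (frestrictLe 0)
        = ν.map (MeasurableEquiv.piUnique (fun _ : Finset.Iic 0 => UnitAddCircle)).symm := by
      unfold chainLaw Kernel.trajMeasure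
      rw [Measure.map_comp _ _ (by fun_prop), Kernel.traj_map_frestrictLe, Kernel.partialTraj_self,
        Measure.id_comp]
    intro g
    have hc0 : Continuous fun z : (_i : Finset.Iic 0) → UnitAddCircle =>
        g (z ⟨0, Finset.mem_Iic.2 le_rfl⟩) :=
      g.continuous.comp (continuous_apply (⟨0, Finset.mem_Iic.2 le_rfl⟩ : Finset.Iic 0))
    have h2 : ∫ x, g (x 0) ∂(chainLaw α p hp ν)
        = ∫ z, g (z ⟨0, Finset.mem_Iic.2 le_rfl⟩) ∂((chainLaw α p hp ν).map (frestrictLe 0)) := by
      rw [integral_map (by fun_prop) hc0.aestronglyMeasurable]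
      rfl
    rw [h2, h1, integral_map (by fun_prop) hc0.aestronglyMeasurable]
    rfl
  · intro f n g
    have h1 : ((chainLaw α p hp ν).map (frestrictLe n)) ⊗ₘ steps α p n
        = (chainLaw α p hp ν).map (fun x => (frestrictLe n x, x (n + 1))) :=
      Kernel.map_frestrictLe_trajMeasure_compProd_eq_map_trajMeasure
        (X := fun _ => UnitAddCircle) (κ := steps α p) (μ₀ := ν) (a := n)
    -- the cylinder function as a function of the first coordinates
    let H : ((_i : Finset.Iic n) → UnitAddCircle) → ℝ := fun z =>
      ∏ i : Finset.Iic n, f i (z i)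
    have hH : Continuous H := by
      refine continuous_finsetProd _ fun i _ => ?_
      exact (f i).continuous.comp (continuous_apply i)
    have hHx : ∀ x : Pa, cyl f (n + 1) x = H (frestrictLe n x) := by
      intro x
      rw [cyl_apply]
      change _ = ∏ i : Finset.Iic n, f i (x i)
      rw [Finset.prod_coe_sort (Finset.Iic n) fun i => f i (x i)]
      refine Finset.prod_congr ?_ fun _ _ => rfl
      ext i; simp
    have hcont : Continuous fun z : ((_i : Finset.Iic n) → UnitAddCircle) × UnitAddCircle =>
        H z.1 * g z.2 := (hH.comp continuous_fst).mul (g.continuous.comp continuous_snd)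
    have h2 : ∫ x, cyl f (n + 1) x * g (x (n + 1)) ∂(chainLaw α p hp ν)
        = ∫ z, H z.1 * g z.2 ∂(((chainLaw α p hp ν).map (frestrictLe n)) ⊗ₘ steps α p n) := by
      rw [h1, integral_map (by fun_prop) hcont.aestronglyMeasurable]
      simp_rw [hHx]
    have := Measure.isProbabilityMeasure_map (μ := chainLaw α p hp ν)
      (f := frestrictLe (π := fun _ => UnitAddCircle) n) (by fun_prop)
    rw [h2, Measure.integral_compProd
      (hcont.integrable_of_hasCompactSupport (HasCompactSupport.of_compactSpace _))]
    have h3 : ∀ z, ∫ w, H z * g w ∂(steps α p n z)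
        = H z * (op α p g) (z ⟨n, Finset.mem_Iic.2 le_rfl⟩) := by
      intro z
      rw [integral_const_mul]
      congr 1
      unfold steps
      rw [Kernel.comap_apply]
      exact kern_integral hp g _
    simp_rw [h3]
    have hc3 : Continuous fun z : (_i : Finset.Iic n) → UnitAddCircle =>
        H z * (op α p g) (z ⟨n, Finset.mem_Iic.2 le_rfl⟩) :=
      hH.mul ((op α p g).continuous.comp
        (continuous_apply (⟨n, Finset.mem_Iic.2 le_rfl⟩ : Finset.Iic n)))
    rw [integral_map (by fun_prop) hc3.aestronglyMeasurable]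
    simp_rw [hHx]
    rfl

end Pool.Agent.Q289.QW
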