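import Pool.Agent.Q289.QW.Path

set_option autoImplicit false

/-!
Mixing for events.
-/

namespace Pool.Agent.Q289.QW

open MeasureTheory Set Filter Topology Metric
open scoped ENNReal NNReal

lemma approx_set {Q : Measure Pa} [IsProbabilityMeasure Q] {A : Set Pa} (hA : MeasurableSet A)
    {ε : ℝ} (hε : 0 < ε) : ∃ F : C(Pa, ℝ), (∀ x, 0 ≤ F x ∧ F x ≤ 1) ∧
      ∫ x, |A.indicator (fun _ => (1 : ℝ)) x - F x| ∂Q ≤ ε := by
  have hi : Integrable (A.indicator fun _ => (1 : ℝ)) Q :=
    (integrable_const _).indicator hA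
  obtain ⟨g, hg, hgi⟩ := hi.exists_boundedContinuous_integral_sub_le hε
  let F : C(Pa, ℝ) := ⟨fun x => max 0 (min 1 (g x)), by fun_prop⟩
  have hF : ∀ x, F x = max 0 (min 1 (g x)) := fun x => rfl
  refine ⟨F, fun x => ⟨le_max_left _ _, max_le zero_le_one (min_le_left _ _)⟩, ?_⟩
  refine le_trans (integral_mono ?_ ?_ fun x => ?_) hg
  · exact (hi.sub (paInt F.continuous)).abs
  · exact (hi.sub hgi).norm
  · simp only [Real.norm_eq_abs]
    rw [hF]
    have h01 : A.indicator (fun _ => (1 : ℝ)) x = 0 ∨ A.indicator (fun _ => (1 : ℝ)) x = 1 := by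
      by_cases hx : x ∈ A
      · right; rw [indicator_of_mem hx]
      · left; rw [indicator_of_notMem hx]
    rcases h01 with h | h <;> rw [h]
    · rcases le_total (g x) 1 with h1 | h1
      · rw [min_eq_right h1]
        rcases le_total 0 (g x) with h2 | h2
        · rw [max_eq_right h2]
        · rw [max_eq_left h2]; simp
      · rw [min_eq_left h1, max_eq_right zero_le_one]
        rw [zero_sub, zero_sub, abs_neg, abs_neg, abs_one]
        exact h1.trans (le_abs_self _)
    · rcases le_total (g x) 1 with h1 | h1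
      · rw [min_eq_right h1]
        rcases le_total 0 (g x) with h2 | h2
        · rw [max_eq_right h2]
        · rw [max_eq_left h2, sub_zero, abs_one]
          rw [abs_of_nonneg (by linarith)]
          linarith
      · rw [min_eq_left h1, max_eq_right zero_le_one, sub_self, abs_zero]
        exact abs_nonneg _

lemma mixing_sets {Q : Measure Pa} [IsProbabilityMeasure Q] (hinv : MeasurePreserving shift Q Q)
    (hmix : ∀ F G : C(Pa, ℝ), Tendsto (fun n => ∫ x, F x * G (shift^[n] x) ∂Q
      - (∫ x, F x ∂Q) * ∫ x, G x ∂Q) atTop (𝓝 0)) {A B : Set Pa} (hA : MeasurableSet A)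
    (hB : MeasurableSet B) :
    Tendsto (fun n => Q (A ∩ shift^[n] ⁻¹' B)) atTop (𝓝 (Q A * Q B)) := by
  have hinvn : ∀ n, MeasurePreserving (shift^[n]) Q Q := fun n => hinv.iterate n
  -- real version
  have hreal : Tendsto (fun n => Q.real (A ∩ shift^[n] ⁻¹' B)) atTop
      (𝓝 (Q.real A * Q.real B)) := by
    rw [Metric.tendsto_atTop]
    intro ε hε
    obtain ⟨F, hF, hFA⟩ := approx_set (Q := Q) hA (ε := ε / 8) (by positivity)
    obtain ⟨G, hG, hGB⟩ := approx_set (Q := Q) hB (ε := ε / 8) (by positivity)
    obtain ⟨N, hN⟩ := (Metric.tendsto_atTop.1 (hmix F G)) (ε / 2) (by positivity)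
    refine ⟨N, fun n hn => ?_⟩
    have h1 := hN n hn
    rw [Real.dist_eq, sub_zero] at h1
    rw [Real.dist_eq]
    set a : Pa → ℝ := A.indicator fun _ => (1 : ℝ) with ha
    set b : Pa → ℝ := B.indicator fun _ => (1 : ℝ) with hb
    have ha01 : ∀ x, 0 ≤ a x ∧ a x ≤ 1 := fun x => by
      rw [ha]; by_cases hx : x ∈ A
      · rw [indicator_of_mem hx]; norm_num
      · rw [indicator_of_notMem hx]; norm_num
    have hb01 : ∀ x, 0 ≤ b x ∧ b x ≤ 1 := fun x => by
      rw [hb]; by_cases hx : x ∈ B
      · rw [indicator_of_mem hx]; norm_num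
      · rw [indicator_of_notMem hx]; norm_num
    have hai : Integrable a Q := (integrable_const _).indicator hA
    have hbi : Integrable b Q := (integrable_const _).indicator hB
    have e1 : Q.real (A ∩ shift^[n] ⁻¹' B) = ∫ x, a x * b (shift^[n] x) ∂Q := by
      rw [← integral_indicator_one (hA.inter ((hinvn n).measurable hB))]
      refine integral_congr_ae (Eventually.of_forall fun x => ?_)
      simp only [ha, hb]
      by_cases hx : x ∈ A <;> by_cases hy : shift^[n] x ∈ B
      · rw [indicator_of_mem (show x ∈ A ∩ shift^[n] ⁻¹' B from ⟨hx, hy⟩), indicator_of_mem hx,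
          indicator_of_mem hy]; simp
      · rw [indicator_of_notMem (show x ∉ A ∩ shift^[n] ⁻¹' B from fun h => hy h.2),
          indicator_of_notMem hy]; simp
      · rw [indicator_of_notMem (show x ∉ A ∩ shift^[n] ⁻¹' B from fun h => hx h.1),
          indicator_of_notMem hx]; simp
      · rw [indicator_of_notMem (show x ∉ A ∩ shift^[n] ⁻¹' B from fun h => hx h.1),
          indicator_of_notMem hx]; simp
    have e2 : Q.real A = ∫ x, a x ∂Q := (integral_indicator_one hA).symm
    have e3 : Q.real B = ∫ x, b x ∂Q := (integral_indicator_one hB).symm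
    have hbn : Integrable (fun x => b (shift^[n] x)) Q := by
      have := (hinvn n).integrable_comp (g := b) hbi.aestronglyMeasurable
      exact this.2 hbi
    have hGn : Integrable (fun x => G (shift^[n] x)) Q :=
      paInt (G.continuous.comp (shift_iter_continuous n))
    have i1 : Integrable (fun x => a x * b (shift^[n] x)) Q := by
      refine Integrable.mono' (g := fun _ => (1 : ℝ)) (integrable_const _)
        (hai.aestronglyMeasurable.mul hbn.aestronglyMeasurable) (Eventually.of_forall fun x => ?_)
      rw [Real.norm_eq_abs, abs_of_nonneg (mul_nonneg (ha01 _).1 (hb01 _).1)]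
      exact mul_le_one₀ (ha01 _).2 (hb01 _).1 (hb01 _).2
    have i2 : Integrable (fun x => F x * G (shift^[n] x)) Q :=
      paInt (F.continuous.mul (G.continuous.comp (shift_iter_continuous n)))
    have i3 : Integrable (fun x => |a x - F x|) Q := (hai.sub (paInt F.continuous)).abs
    have i4 : Integrable (fun x => |b (shift^[n] x) - G (shift^[n] x)|) Q := (hbn.sub hGn).abs
    have f1 : |∫ x, a x * b (shift^[n] x) ∂Q - ∫ x, F x * G (shift^[n] x) ∂Q| ≤ ε / 8 + ε / 8 := by
      rw [← integral_sub i1 i2]
      refine (abs_integral_le_integral_abs).trans ?_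
      have : ∫ x, |b (shift^[n] x) - G (shift^[n] x)| ∂Q = ∫ x, |b x - G x| ∂Q := by
        have h2 := integral_map (μ := Q) (hinvn n).measurable.aemeasurable
          (f := fun x => |b x - G x|)
          (by rw [(hinvn n).map_eq]; exact ((hbi.sub (paInt G.continuous)).abs).aestronglyMeasurable)
        rw [(hinvn n).map_eq] at h2
        exact h2.symm
      refine (integral_mono (i1.sub i2).abs (i3.add i4) fun x => ?_).trans ?_
      · simp only [Pi.add_apply]
        have e : a x * b (shift^[n] x) - F x * G (shift^[n] x)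
            = (a x - F x) * b (shift^[n] x) + F x * (b (shift^[n] x) - G (shift^[n] x)) := by ring
        rw [Pi.sub_apply, e]
        refine (abs_add_le _ _).trans ?_
        rw [abs_mul, abs_mul, abs_of_nonneg (hb01 (shift^[n] x)).1, abs_of_nonneg (hF x).1]
        have u1 := mul_le_mul_of_nonneg_left (hb01 (shift^[n] x)).2 (abs_nonneg (a x - F x))
        have u2 := mul_le_mul_of_nonneg_right (hF x).2
          (abs_nonneg (b (shift^[n] x) - G (shift^[n] x)))
        linarith
      · have h3 := integral_add i3 i4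
        simp only [Pi.add_apply] at h3 ⊢
        rw [h3, this]
        exact add_le_add hFA hGB
    have f2 : |∫ x, a x ∂Q - ∫ x, F x ∂Q| ≤ ε / 8 := by
      rw [← integral_sub hai (paInt F.continuous)]
      exact (abs_integral_le_integral_abs).trans hFA
    have f3 : |∫ x, b x ∂Q - ∫ x, G x ∂Q| ≤ ε / 8 := by
      rw [← integral_sub hbi (paInt G.continuous)]
      exact (abs_integral_le_integral_abs).trans hGB
    have g1 : 0 ≤ ∫ x, b x ∂Q ∧ ∫ x, b x ∂Q ≤ 1 := by
      rw [← e3]; exact ⟨measureReal_nonneg, measureReal_le_one⟩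
    have g2 : 0 ≤ ∫ x, F x ∂Q ∧ ∫ x, F x ∂Q ≤ 1 := by
      refine ⟨integral_nonneg fun x => (hF x).1, ?_⟩
      have := integral_mono (μ := Q) (paInt F.continuous) (integrable_const (1 : ℝ))
        fun x => (hF x).2
      simpa using this
    rw [e1, e2, e3]
    set u := ∫ x, a x * b (shift^[n] x) ∂Q
    set v := ∫ x, F x * G (shift^[n] x) ∂Q
    set A' := ∫ x, a x ∂Q
    set B' := ∫ x, b x ∂Q
    set F' := ∫ x, F x ∂Q
    set G' := ∫ x, G x ∂Q
    have e : u - A' * B' = (u - v) + (v - F' * G') - (A' - F') * B' - F' * (B' - G') := by ring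
    have k1 : |(A' - F') * B'| ≤ ε / 8 := by
      rw [abs_mul, abs_of_nonneg g1.1]
      nlinarith [abs_nonneg (A' - F')]
    have k2 : |F' * (B' - G')| ≤ ε / 8 := by
      rw [abs_mul, abs_of_nonneg g2.1]
      nlinarith [abs_nonneg (B' - G')]
    rw [e]
    have k3 := abs_lt.1 h1
    have k4 := abs_le.1 f1
    have k5 := abs_le.1 k1
    have k6 := abs_le.1 k2
    rw [abs_lt]
    constructor <;> linarith
  have h2 := ENNReal.tendsto_ofReal hreal
  rw [ENNReal.ofReal_mul measureReal_nonneg, ofReal_measureReal, ofReal_measureReal] at h2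
  refine h2.congr fun n => ?_
  rw [ofReal_measureReal]

end Pool.Agent.Q289.QW
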