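import Pool.Agent.Q289.QW.Conv

set_option autoImplicit false

/-!
Mixing of the stationary chain on the path space.
-/

namespace Pool.Agent.Q289.QW

open MeasureTheory Set Filter Topology Metric
open scoped ENNReal NNReal

/-- the paths -/
abbrev Pa : Type := ℕ → UnitAddCircle

/-- the time shift -/
def shift (x : Pa) : Pa := fun n => x (n + 1)

lemma shift_continuous : Continuous shift := by
  unfold shift; fun_prop

lemma shift_iter (n : ℕ) (x : Pa) (i : ℕ) : (shift^[n] x) i = x (i + n) := by
  induction n generalizing x with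
  | zero => rfl
  | succ n ih =>
    rw [Function.iterate_succ_apply, ih]
    unfold shift
    congr 1

lemma shift_iter_continuous (n : ℕ) : Continuous (shift^[n]) := shift_continuous.iterate n

/-- cylinder functions of product type -/
noncomputable def cyl (f : ℕ → C(UnitAddCircle, ℝ)) (k : ℕ) : C(Pa, ℝ) :=
  ∏ i ∈ Finset.range k, (f i).comp ⟨fun x : Pa => x i, by fun_prop⟩

lemma cyl_apply (f : ℕ → C(UnitAddCircle, ℝ)) (k : ℕ) (x : Pa) :
    cyl f k x = ∏ i ∈ Finset.range k, f i (x i) := by
  unfold cyl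
  rw [ContinuousMap.prod_apply]
  rfl

lemma cyl_mul (f g : ℕ → C(UnitAddCircle, ℝ)) (k r : ℕ) : cyl f k * cyl g r =
    cyl (fun i => (if i < k then f i else 1) * (if i < r then g i else 1)) (max k r) := by
  ext x
  rw [ContinuousMap.mul_apply, cyl_apply, cyl_apply, cyl_apply]
  simp only [ContinuousMap.mul_apply]
  rw [Finset.prod_mul_distrib]
  congr 1
  · rw [← Finset.prod_subset (Finset.range_mono (le_max_left k r))]
    · refine Finset.prod_congr rfl fun i hi => ?_
      rw [if_pos (Finset.mem_range.1 hi)]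
    · intro i _ hi
      rw [if_neg (by simpa using hi)]
      rfl
  · rw [← Finset.prod_subset (Finset.range_mono (le_max_right k r))]
    · refine Finset.prod_congr rfl fun i hi => ?_
      rw [if_pos (Finset.mem_range.1 hi)]
    · intro i _ hi
      rw [if_neg (by simpa using hi)]
      rfl

/-- the submonoid of cylinder functions -/
noncomputable def cylMonoid : Submonoid C(Pa, ℝ) where
  carrier := {F | ∃ f k, F = cyl f k}
  mul_mem' := by
    rintro _ _ ⟨f, k, rfl⟩ ⟨g, r, rfl⟩
    exact ⟨_, _, cyl_mul f g k r⟩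
  one_mem' := ⟨fun _ => 1, 0, by ext x; simp [cyl_apply]⟩

lemma cyl_dense : (Submodule.span ℝ {F : C(Pa, ℝ) | ∃ f k, F = cyl f k}).topologicalClosure = ⊤ := by
  have h1 : Subalgebra.toSubmodule (Algebra.adjoin ℝ (cylMonoid : Set C(Pa, ℝ)))
      = Submodule.span ℝ {F : C(Pa, ℝ) | ∃ f k, F = cyl f k} := by
    rw [Algebra.adjoin_eq_span, Submonoid.closure_eq]
    rfl
  have h2 : (Algebra.adjoin ℝ (cylMonoid : Set C(Pa, ℝ))).SeparatesPoints := by
    intro x y hxy
    obtain ⟨i, hi⟩ := Function.ne_iff.1 hxy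
    let f : ℕ → C(UnitAddCircle, ℝ) := fun j =>
      if j = i then ⟨fun z => dist z (y i), by fun_prop⟩ else 1
    refine ⟨cyl f (i + 1), ⟨cyl f (i + 1), Algebra.subset_adjoin ⟨f, i + 1, rfl⟩, rfl⟩, ?_⟩
    have h3 : ∀ z : Pa, cyl f (i + 1) z = dist (z i) (y i) := by
      intro z
      rw [cyl_apply, Finset.prod_range_succ, Finset.prod_eq_one]
      · simp [f]
      · intro j hj
        have : j ≠ i := (Finset.mem_range.1 hj).ne
        simp [f, this]
    change cyl f (i + 1) x ≠ cyl f (i + 1) y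
    rw [h3, h3, dist_self]
    exact (dist_pos.2 hi).ne'
  have h3 := ContinuousMap.subalgebra_topologicalClosure_eq_top_of_separatesPoints _ h2
  have h4 := congrArg (fun A : Subalgebra ℝ C(Pa, ℝ) => (A : Set C(Pa, ℝ))) h3
  rw [← h1]
  apply SetLike.coe_injective
  rw [Submodule.topologicalClosure_coe]
  exact h4

/-- the tail operator -/
noncomputable def tl (α : ℝ) (p : C(UnitAddCircle, ℝ)) :
    ℕ → (ℕ → C(UnitAddCircle, ℝ)) → C(UnitAddCircle, ℝ) → C(UnitAddCircle, ℝ)
  | 0, _, u => u
  | r + 1, g, u => tl α p r g (g r * op α p u)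

/-- `Q` is the law of the chain with the initial law `ν` (in terms of cylinder functions) -/
structure ChainLike (α : ℝ) (p : C(UnitAddCircle, ℝ)) (ν : Measure UnitAddCircle)
    (Q : Measure Pa) : Prop where
  prob : IsProbabilityMeasure Q
  init : ∀ g : C(UnitAddCircle, ℝ), ∫ x, g (x 0) ∂Q = ∫ y, g y ∂ν
  step : ∀ (f : ℕ → C(UnitAddCircle, ℝ)) (n : ℕ) (g : C(UnitAddCircle, ℝ)),
    ∫ x, cyl f (n + 1) x * g (x (n + 1)) ∂Q = ∫ x, cyl f (n + 1) x * (op α p g) (x n) ∂Q

variable {α : ℝ} {p : C(UnitAddCircle, ℝ)} {ν : Measure UnitAddCircle} {Q : Measure Pa}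

lemma paInt {Q : Measure Pa} [IsFiniteMeasure Q] {f : Pa → ℝ} (hf : Continuous f) :
    Integrable f Q :=
  hf.integrable_of_hasCompactSupport (HasCompactSupport.of_compactSpace _)

lemma ChainLike.step' (h : ChainLike α p ν Q) (f : ℕ → C(UnitAddCircle, ℝ)) (n : ℕ)
    (g : C(UnitAddCircle, ℝ)) : ∫ x, cyl f (n + 1) x * g (x (n + 1)) ∂Q
      = ∫ x, cyl f n x * (f n * op α p g) (x n) ∂Q := by
  rw [h.step]
  refine integral_congr_ae (Eventually.of_forall fun x => ?_)
  simp only [cyl_apply, Finset.prod_range_succ, ContinuousMap.mul_apply]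
  ring

lemma ChainLike.tail (h : ChainLike α p ν Q) (f : ℕ → C(UnitAddCircle, ℝ)) (n r : ℕ)
    (u : C(UnitAddCircle, ℝ)) : ∫ x, cyl f (n + r) x * u (x (n + r)) ∂Q
      = ∫ x, cyl f n x * (tl α p r (fun i => f (n + i)) u) (x n) ∂Q := by
  induction r generalizing u with
  | zero => rfl
  | succ r ih =>
    rw [← add_assoc, h.step', ih]
    rfl

lemma ChainLike.cyl_integral (h : ChainLike α p ν Q) (g : ℕ → C(UnitAddCircle, ℝ)) (r : ℕ) :
    ∫ x, cyl g r x ∂Q = ∫ y, (tl α p r g 1) y ∂ν := by
  have h1 := h.tail g 0 r 1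
  have h2 : ∀ x : Pa, cyl g (0 + r) x * (1 : C(UnitAddCircle, ℝ)) (x (0 + r)) = cyl g r x := by
    intro x; rw [zero_add]; simp
  have h3 : ∀ x : Pa, cyl g 0 x * (tl α p r (fun i => g (0 + i)) 1) (x 0)
      = (tl α p r (fun i => g (0 + i)) 1) (x 0) := by
    intro x; rw [cyl_apply]; simp
  simp_rw [h2, h3] at h1
  rw [h1, h.init]
  simp only [zero_add]

lemma tl_one (n : ℕ) (u : C(UnitAddCircle, ℝ)) : tl α p n (fun _ => 1) u = ((op α p) ^ n) u := by
  induction n generalizing u with
  | zero => rfl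
  | succ n ih => rw [tl, one_mul, ih, pow_succ, Module.End.mul_apply]

/-- the joint expectation of two cylinder functions -/
lemma ChainLike.joint (h : ChainLike α p ν Q) (f g : ℕ → C(UnitAddCircle, ℝ)) (k r m : ℕ) :
    ∫ x, cyl f k x * cyl g r (shift^[k + m] x) ∂Q
      = ∫ x, cyl f k x * (((op α p) ^ m) (tl α p r g 1)) (x k) ∂Q := by
  set F : ℕ → C(UnitAddCircle, ℝ) :=
    fun i => if i < k then f i else if i < k + m then 1 else g (i - (k + m)) with hF
  have h1 : ∀ x : Pa, cyl f k x * cyl g r (shift^[k + m] x)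
      = cyl F (k + m + r) x * (1 : C(UnitAddCircle, ℝ)) (x (k + m + r)) := by
    intro x
    rw [cyl_apply, cyl_apply, cyl_apply, Finset.prod_range_add, Finset.prod_range_add]
    have e1 : ∏ i ∈ Finset.range k, F i (x i) = ∏ i ∈ Finset.range k, f i (x i) := by
      refine Finset.prod_congr rfl fun i hi => ?_
      simp only [hF]
      rw [if_pos (Finset.mem_range.1 hi)]
    have e2 : ∏ i ∈ Finset.range m, F (k + i) (x (k + i)) = 1 := by
      refine Finset.prod_eq_one fun i hi => ?_
      have := Finset.mem_range.1 hi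
      simp only [hF]
      rw [if_neg (by omega), if_pos (by omega)]
      rfl
    have e3 : ∏ i ∈ Finset.range r, F (k + m + i) (x (k + m + i))
        = ∏ i ∈ Finset.range r, g i ((shift^[k + m] x) i) := by
      refine Finset.prod_congr rfl fun i hi => ?_
      simp only [hF]
      rw [if_neg (by omega), if_neg (by omega), shift_iter, Nat.add_sub_cancel_left,
        add_comm i (k + m)]
    rw [e1, e2, e3]
    simp
  simp_rw [h1]
  rw [h.tail F (k + m) r 1, h.tail F k m]
  have h2 : (fun i => F (k + m + i)) = g := by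
    funext i
    simp only [hF]
    rw [if_neg (by omega), if_neg (by omega), Nat.add_sub_cancel_left]
  have h3 : ∀ u, tl α p m (fun i => F (k + i)) u = tl α p m (fun _ => 1) u := by
    have h4 : ∀ m' ≤ m, ∀ u, tl α p m' (fun i => F (k + i)) u = tl α p m' (fun _ => 1) u := by
      intro m' hm'
      induction m' with
      | zero => intro u; rfl
      | succ m' ih =>
        intro u
        rw [tl, tl, ih (by omega)]
        congr 2
        simp only [hF]
        rw [if_neg (by omega), if_pos (by omega)]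
    exact h4 m le_rfl
  rw [h2, h3, tl_one]
  refine integral_congr_ae (Eventually.of_forall fun x => ?_)
  simp only
  congr 1
  rw [cyl_apply, cyl_apply]
  refine Finset.prod_congr rfl fun i hi => ?_
  simp only [hF]
  rw [if_pos (Finset.mem_range.1 hi)]

/-- a closure argument -/
lemma closure_arg {V : Type*} [NormedAddCommGroup V] [NormedSpace ℝ V] {D : Set V}
    (hD : (Submodule.span ℝ D).topologicalClosure = ⊤) (Λ : ℕ → V → ℝ)
    (hadd : ∀ n u v, Λ n (u + v) = Λ n u + Λ n v) (hsmul : ∀ n (a : ℝ) v, Λ n (a • v) = a * Λ n v)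
    {K : ℝ} (hK : ∀ n v, |Λ n v| ≤ K * ‖v‖) (h : ∀ v ∈ D, Tendsto (fun n => Λ n v) atTop (𝓝 0))
    (v : V) : Tendsto (fun n => Λ n v) atTop (𝓝 0) := by
  have hzero : ∀ n, Λ n 0 = 0 := fun n => by
    have := hsmul n 0 0
    rwa [zero_smul, zero_mul] at this
  let S : Submodule ℝ V :=
    { carrier := {v | Tendsto (fun n => Λ n v) atTop (𝓝 0)}
      add_mem' := by
        intro u v hu hv
        have := hu.add hv
        rw [add_zero] at this
        exact this.congr fun n => (hadd n u v).symm
      zero_mem' := by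
        change Tendsto (fun n => Λ n 0) atTop (𝓝 0)
        simp_rw [hzero]
        exact tendsto_const_nhds
      smul_mem' := by
        intro a v hv
        have := hv.const_mul a
        rw [mul_zero] at this
        exact this.congr fun n => (hsmul n a v).symm }
  have hS : IsClosed (S : Set V) := by
    rw [← closure_subset_iff_isClosed]
    intro v hv
    change Tendsto (fun n => Λ n v) atTop (𝓝 0)
    rw [Metric.tendsto_atTop]
    intro ε hε
    have hK' : 0 < |K| + 1 := by positivity
    obtain ⟨u, hu, huv⟩ := Metric.mem_closure_iff.1 hv (ε / 2 / (|K| + 1)) (by positivity)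
    obtain ⟨N, hN⟩ := (Metric.tendsto_atTop.1 (show Tendsto (fun n => Λ n u) atTop (𝓝 0) from hu))
      (ε / 2) (by positivity)
    refine ⟨N, fun n hn => ?_⟩
    have h1 := hN n hn
    rw [Real.dist_eq, sub_zero] at h1 ⊢
    have h2 : Λ n v = Λ n u + Λ n (v - u) := by rw [← hadd]; congr 1; abel
    have h3 := hK n (v - u)
    have h4 : K * ‖v - u‖ ≤ (|K| + 1) * ‖v - u‖ := by
      gcongr
      linarith [le_abs_self K]
    rw [dist_eq_norm] at huv
    have h5 : (|K| + 1) * ‖v - u‖ < ε / 2 := by
      rw [lt_div_iff₀ hK'] at huv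
      linarith
    rw [h2]
    refine (abs_add_le _ _).trans_lt ?_
    linarith
  have h1 : (Submodule.span ℝ D).topologicalClosure ≤ S :=
    Submodule.topologicalClosure_minimal _ (Submodule.span_le.2 h) hS
  rw [hD] at h1
  exact h1 (Submodule.mem_top (x := v))

/-- mixing for continuous functions -/
lemma ChainLike.mixing_continuous (h : ChainLike α p ν Q)
    (hconv : ∀ φ : C(UnitAddCircle, ℝ), Tendsto (fun n : ℕ => ‖((op α p) ^ n) φ
      - ContinuousMap.const _ (∫ y, φ y ∂ν)‖) atTop (𝓝 0)) (F G : C(Pa, ℝ)) :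
    Tendsto (fun n => ∫ x, F x * G (shift^[n] x) ∂Q - (∫ x, F x ∂Q) * ∫ x, G x ∂Q)
      atTop (𝓝 0) := by
  have := h.prob
  have hcont : ∀ (F G : C(Pa, ℝ)) (n : ℕ), Continuous fun x => F x * G (shift^[n] x) :=
    fun F G n => F.continuous.mul (G.continuous.comp (shift_iter_continuous n))
  have hint : ∀ (F G : C(Pa, ℝ)) (n : ℕ), Integrable (fun x => F x * G (shift^[n] x)) Q :=
    fun F G n => paInt (hcont F G n)
  have hb1 : ∀ F : C(Pa, ℝ), |∫ x, F x ∂Q| ≤ ‖F‖ := by
    intro F
    have := norm_integral_le_of_norm_le_const (μ := Q) (Eventually.of_forall F.norm_coe_le_norm)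
    simpa using this
  have hb2 : ∀ (F G : C(Pa, ℝ)) n, |∫ x, F x * G (shift^[n] x) ∂Q| ≤ ‖F‖ * ‖G‖ := by
    intro F G n
    have := norm_integral_le_of_norm_le_const (μ := Q) (f := fun x => F x * G (shift^[n] x))
      (C := ‖F‖ * ‖G‖) (Eventually.of_forall fun x => by
        rw [norm_mul]
        exact mul_le_mul (F.norm_coe_le_norm _) (G.norm_coe_le_norm _) (norm_nonneg _)
          (norm_nonneg _))
    simpa using this
  have hb : ∀ (F G : C(Pa, ℝ)) n,
      |∫ x, F x * G (shift^[n] x) ∂Q - (∫ x, F x ∂Q) * ∫ x, G x ∂Q| ≤ 2 * (‖F‖ * ‖G‖) := by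
    intro F G n
    refine (abs_sub _ _).trans ?_
    rw [abs_mul]
    have e1 := hb2 F G n
    have e2 := mul_le_mul (hb1 F) (hb1 G) (abs_nonneg _) (norm_nonneg _)
    linarith
  -- for cylinder functions
  have hcyl : ∀ f k g r, Tendsto (fun n => ∫ x, cyl f k x * cyl g r (shift^[n] x) ∂Q
      - (∫ x, cyl f k x ∂Q) * ∫ x, cyl g r x ∂Q) atTop (𝓝 0) := by
    intro f k g r
    rw [← tendsto_add_atTop_iff_nat k]
    have h1 : ∀ m, ∫ x, cyl f k x * cyl g r (shift^[m + k] x) ∂Q
        - (∫ x, cyl f k x ∂Q) * ∫ x, cyl g r x ∂Q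
        = ∫ x, cyl f k x * ((((op α p) ^ m) (tl α p r g 1)) (x k)
          - ∫ y, (tl α p r g 1) y ∂ν) ∂Q := by
      intro m
      rw [add_comm m k, h.joint f g k r m, h.cyl_integral g r]
      have e1 : ∀ x : Pa, cyl f k x * ((((op α p) ^ m) (tl α p r g 1)) (x k)
          - ∫ y, (tl α p r g 1) y ∂ν) = cyl f k x * (((op α p) ^ m) (tl α p r g 1)) (x k)
            - cyl f k x * ∫ y, (tl α p r g 1) y ∂ν := fun x => by ring
      simp_rw [e1]
      have i1 : Integrable (fun x : Pa => cyl f k x * (((op α p) ^ m) (tl α p r g 1)) (x k)) Q :=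
        paInt ((cyl f k).continuous.mul ((ContinuousMap.continuous _).comp (continuous_apply k)))
      have i2 : Integrable (fun x : Pa => cyl f k x * ∫ y, (tl α p r g 1) y ∂ν) Q :=
        paInt ((cyl f k).continuous.mul continuous_const)
      rw [integral_sub i1 i2, integral_mul_const]
    simp_rw [h1]
    have h2 := (hconv (tl α p r g 1)).const_mul ‖cyl f k‖
    rw [mul_zero] at h2
    apply squeeze_zero_norm _ h2
    intro m
    have := norm_integral_le_of_norm_le_const (μ := Q) (f := fun x : Pa => cyl f k x *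
      ((((op α p) ^ m) (tl α p r g 1)) (x k) - ∫ y, (tl α p r g 1) y ∂ν))
      (C := ‖cyl f k‖ * ‖((op α p) ^ m) (tl α p r g 1)
      - ContinuousMap.const _ (∫ y, (tl α p r g 1) y ∂ν)‖) (Eventually.of_forall fun x => by
        rw [norm_mul]
        refine mul_le_mul ((cyl f k).norm_coe_le_norm _) ?_ (norm_nonneg _) (norm_nonneg _)
        exact ContinuousMap.norm_coe_le_norm (((op α p) ^ m) (tl α p r g 1)
          - ContinuousMap.const _ (∫ y, (tl α p r g 1) y ∂ν)) (x k))
    simpa using this
  -- first `G`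
  have hG : ∀ f k (G : C(Pa, ℝ)), Tendsto (fun n => ∫ x, cyl f k x * G (shift^[n] x) ∂Q
      - (∫ x, cyl f k x ∂Q) * ∫ x, G x ∂Q) atTop (𝓝 0) := by
    intro f k G
    refine closure_arg cyl_dense (fun n G => ∫ x, cyl f k x * G (shift^[n] x) ∂Q
      - (∫ x, cyl f k x ∂Q) * ∫ x, G x ∂Q) ?_ ?_ (K := 2 * ‖cyl f k‖) ?_ ?_ G
    · intro n u v
      simp only [ContinuousMap.add_apply, mul_add]
      rw [integral_add (hint _ _ _) (hint _ _ _), integral_add (paInt u.continuous)
        (paInt v.continuous)]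
      ring
    · intro n a v
      simp only [ContinuousMap.smul_apply, smul_eq_mul]
      have e1 : ∀ x, cyl f k x * (a * v (shift^[n] x)) = a * (cyl f k x * v (shift^[n] x)) :=
        fun x => by ring
      simp_rw [e1]
      rw [integral_const_mul, integral_const_mul]
      ring
    · intro n v
      have := hb (cyl f k) v n
      linarith
    · rintro _ ⟨g, r, rfl⟩
      exact hcyl f k g r
  refine closure_arg cyl_dense (fun n F => ∫ x, F x * G (shift^[n] x) ∂Q
    - (∫ x, F x ∂Q) * ∫ x, G x ∂Q) ?_ ?_ (K := 2 * ‖G‖) ?_ ?_ F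
  · intro n u v
    simp only [ContinuousMap.add_apply, add_mul]
    rw [integral_add (hint _ _ _) (hint _ _ _), integral_add (paInt u.continuous)
      (paInt v.continuous)]
    ring
  · intro n a v
    simp only [ContinuousMap.smul_apply, smul_eq_mul]
    have e1 : ∀ x, a * v x * G (shift^[n] x) = a * (v x * G (shift^[n] x)) :=
      fun x => by ring
    simp_rw [e1]
    rw [integral_const_mul, integral_const_mul]
    ring
  · intro n v
    have := hb v G n
    linarith
  · rintro _ ⟨f, k, rfl⟩
    exact hG f k G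

/-- invariance of the law -/
lemma ChainLike.invariant (h : ChainLike α p ν Q)
    (hst : ∀ φ, ∫ y, op α p φ y ∂ν = ∫ y, φ y ∂ν) : MeasurePreserving shift Q Q := by
  have := h.prob
  refine ⟨shift_continuous.measurable, ?_⟩
  have := Measure.isProbabilityMeasure_map (μ := Q) shift_continuous.measurable.aemeasurable
  apply ext_of_forall_integral_eq_of_IsFiniteMeasure
  intro G'
  rw [integral_map shift_continuous.measurable.aemeasurable G'.continuous.aestronglyMeasurable]
  obtain ⟨G, hG⟩ : ∃ G : C(Pa, ℝ), ∀ x, G' x = G x := ⟨G'.toContinuousMap, fun x => rfl⟩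
  simp_rw [hG]
  have hc : ∀ G : C(Pa, ℝ), Continuous fun x => G (shift x) := fun G =>
    G.continuous.comp shift_continuous
  have hb1 : ∀ F : C(Pa, ℝ), |∫ x, F x ∂Q| ≤ ‖F‖ := by
    intro F
    have := norm_integral_le_of_norm_le_const (μ := Q) (Eventually.of_forall F.norm_coe_le_norm)
    simpa using this
  have hb2 : ∀ G : C(Pa, ℝ), |∫ x, G (shift x) ∂Q| ≤ ‖G‖ := by
    intro G
    have := norm_integral_le_of_norm_le_const (μ := Q) (f := fun x => G (shift x))
      (C := ‖G‖) (Eventually.of_forall fun x => G.norm_coe_le_norm _)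
    simpa using this
  have h1 := closure_arg cyl_dense (fun _ (G : C(Pa, ℝ)) => ∫ x, G (shift x) ∂Q - ∫ x, G x ∂Q)
    ?_ ?_ (K := 2) ?_ ?_ G
  · exact sub_eq_zero.1 (tendsto_nhds_unique tendsto_const_nhds h1)
  · intro n u v
    simp only [ContinuousMap.add_apply]
    rw [integral_add (paInt (hc u)) (paInt (hc v)), integral_add (paInt u.continuous)
        (paInt v.continuous)]
    ring
  · intro n a v
    simp only [ContinuousMap.smul_apply, smul_eq_mul]
    rw [integral_const_mul, integral_const_mul]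
    ring
  · intro n v
    refine (abs_sub _ _).trans ?_
    have := hb1 v; have := hb2 v
    linarith
  · rintro _ ⟨g, r, rfl⟩
    have h2 := h.joint (fun _ => 1) g 0 r 1
    simp only [cyl_apply, Finset.range_zero, Finset.prod_empty, one_mul, zero_add, pow_one,
      Function.iterate_one] at h2
    rw [h.init, hst, ← h.cyl_integral] at h2
    have h3 : ∫ x, cyl g r (shift x) ∂Q = ∫ x, cyl g r x ∂Q := by
      rw [← h2]
      refine integral_congr_ae (Eventually.of_forall fun x => ?_)
      simp only [cyl_apply]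
    simp_rw [h3, sub_self]
    exact tendsto_const_nhds

end Pool.Agent.Q289.QW
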