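import Pool.Agent.Q289.QW.Flux

set_option autoImplicit false

/-!
In the symmetric case stationary measures are reversible, hence conformal, hence unique.
-/

namespace Pool.Agent.Q289.QW

open MeasureTheory Set Filter Topology Metric
open scoped ENNReal NNReal

/-- the test functions -/
noncomputable def test (β : ℝ) (p q : UnitAddCircle → ℝ) : ℕ → UnitAddCircle → ℝ
  | 0 => fun y => (p y)⁻¹
  | j + 1 => fun y => test β p q j (y - (β : UnitAddCircle)) * q y / p y

variable {β : ℝ} {p q : UnitAddCircle → ℝ} {ν : Measure UnitAddCircle}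

lemma test_pos (hp : ∀ y, 0 < p y) (hq : ∀ y, 0 < q y) (j : ℕ) (y : UnitAddCircle) :
    0 < test β p q j y := by
  induction j generalizing y with
  | zero => exact inv_pos.2 (hp y)
  | succ j ih => exact div_pos (mul_pos (ih _) (hq y)) (hp y)

lemma test_continuous (hpc : Continuous p) (hqc : Continuous q) (hp : ∀ y, 0 < p y) (j : ℕ) :
    Continuous (test β p q j) := by
  induction j with
  | zero => exact hpc.inv₀ fun y => (hp y).ne'
  | succ j ih =>
    have h1 : Continuous fun y : UnitAddCircle => test β p q j (y - (β : UnitAddCircle)) :=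
      ih.comp (by fun_prop)
    exact (h1.mul hqc).div hpc fun y => (hp y).ne'

lemma vol_real : (volume : Measure UnitAddCircle).real univ = 1 := by simp [Measure.real]

lemma test_log (hpc : Continuous p) (hqc : Continuous q) (hp : ∀ y, 0 < p y) (hq : ∀ y, 0 < q y)
    (hlog : ∫ y, Real.log (p y) = ∫ y, Real.log (q y)) (j : ℕ) :
    ∫ y, Real.log (test β p q j y) = - ∫ y, Real.log (p y) := by
  have hlc : ∀ {f : UnitAddCircle → ℝ}, Continuous f → (∀ y, 0 < f y) →
      Integrable (fun y => Real.log (f y)) (volume : Measure UnitAddCircle) := fun hf h =>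
    intg _ (hf.log fun y => (h y).ne')
  induction j with
  | zero =>
    simp only [test, Real.log_inv]
    rw [integral_neg]
  | succ j ih =>
    have h1 : ∀ y, Real.log (test β p q (j + 1) y)
        = Real.log (test β p q j (y - (β : UnitAddCircle))) + (Real.log (q y) - Real.log (p y)) := by
      intro y
      simp only [test]
      rw [Real.log_div (mul_pos (test_pos hp hq j _) (hq y)).ne' (hp y).ne',
        Real.log_mul (test_pos hp hq j _).ne' (hq y).ne']
      ring
    simp_rw [h1]
    have h2 : Integrable (fun y => Real.log (test β p q j (y - (β : UnitAddCircle))))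
        (volume : Measure UnitAddCircle) :=
      intg _ (((test_continuous hpc hqc hp j).comp (by fun_prop)).log
        fun y => (test_pos hp hq j _).ne')
    have h3 : Integrable (fun y => Real.log (q y) - Real.log (p y))
        (volume : Measure UnitAddCircle) := (hlc hqc hq).sub (hlc hpc hp)
    rw [integral_add h2 h3, integral_sub (hlc hqc hq) (hlc hpc hp),
      integral_sub_right_eq_self (fun y => Real.log (test β p q j y)) (β : UnitAddCircle), ih, hlog]
    ring

lemma flux_nonpos [IsFiniteMeasure ν] (hpc : Continuous p) (hqc : Continuous q)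
    (hp : ∀ y, 0 < p y) (hp1 : ∀ y, p y ≤ 1) (hq : ∀ y, 0 < q y)
    (hlog : ∫ y, Real.log (p y) = ∫ y, Real.log (q y)) {c : ℝ}
    (h : ∀ φ : C(UnitAddCircle, ℝ),
      ∫ y, p y * φ y ∂ν = ∫ y, q y * φ (y - (β : UnitAddCircle)) ∂ν + c * ∫ y, φ y) : c ≤ 0 := by
  by_contra hc
  push Not at hc
  have hnn : ∀ n, 0 ≤ ∫ y, p y * test β p q n y ∂ν := fun n =>
    integral_nonneg fun y => (mul_pos (hp y) (test_pos hp hq n y)).le
  have hone : ∀ n, 1 ≤ ∫ y, test β p q n y := by
    intro n
    have h1 : ∫ y, (1 + Real.log (test β p q n y)) ≤ ∫ y, test β p q n y := by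
      apply integral_mono
      · exact intg _ (continuous_const.add ((test_continuous hpc hqc hp n).log
          fun y => (test_pos hp hq n y).ne'))
      · exact intg _ (test_continuous hpc hqc hp n)
      · intro y
        have := Real.log_le_sub_one_of_pos (test_pos (β := β) hp hq n y)
        simp only
        linarith
    rw [integral_add (integrable_const _) (intg _ ((test_continuous hpc hqc hp n).log
      fun y => (test_pos hp hq n y).ne')), test_log hpc hqc hp hq hlog, integral_const, vol_real,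
      one_smul] at h1
    have h2 : ∫ y, Real.log (p y) ≤ 0 :=
      integral_nonpos fun y => Real.log_nonpos (hp y).le (hp1 y)
    linarith
  have hstep : ∀ n, ∫ y, p y * test β p q n y ∂ν
      = ∫ y, p y * test β p q (n + 1) y ∂ν + c * ∫ y, test β p q n y := by
    intro n
    have h1 := h ⟨test β p q n, test_continuous hpc hqc hp n⟩
    simp only [ContinuousMap.coe_mk] at h1
    rw [h1]
    congr 1
    refine integral_congr_ae (Eventually.of_forall fun y => ?_)
    simp only [test]
    field_simp [(hp y).ne']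
  have hsum : ∀ n : ℕ, c * n ≤ ∫ y, p y * test β p q 0 y ∂ν - ∫ y, p y * test β p q n y ∂ν := by
    intro n
    induction n with
    | zero => simp
    | succ n ih =>
      have h1 := hstep n
      have h2 := mul_le_mul_of_nonneg_left (hone n) hc.le
      push_cast
      linarith
  obtain ⟨n, hn⟩ := exists_nat_gt ((∫ y, p y * test β p q 0 y ∂ν) / c)
  rw [div_lt_iff₀ hc] at hn
  have h1 := hsum n
  have h2 := hnn n
  nlinarith

/-- reversibility -/
lemma Stat.reversible [IsFiniteMeasure ν] (h : Stat β p q ν) (hβ : Irrational β)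
    (hpc : Continuous p) (hqc : Continuous q) (hp : ∀ y, 0 < p y) (hp1 : ∀ y, p y ≤ 1)
    (hq : ∀ y, 0 < q y) (hq1 : ∀ y, q y ≤ 1)
    (hlog : ∫ y, Real.log (p y) = ∫ y, Real.log (q y)) (φ : C(UnitAddCircle, ℝ)) :
    ∫ y, p y * φ y ∂ν = ∫ y, q y * φ (y - (β : UnitAddCircle)) ∂ν := by
  obtain ⟨c, hc⟩ := h.flux_eq hβ hpc hqc
  have h1 : c ≤ 0 := flux_nonpos hpc hqc hp hp1 hq hlog hc
  have h2 : -c ≤ 0 := by
    refine flux_nonpos (β := -β) (p := q) (q := p) (ν := ν) hqc hpc hq hq1 hp hlog.symm ?_
    intro ψ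
    have h3 := hc (ψ.comp (rot β))
    simp only [ContinuousMap.comp_apply, rot, ContinuousMap.coe_mk, sub_add_cancel] at h3
    have h4 := integral_add_right_eq_self (μ := (volume : Measure UnitAddCircle))
      (fun y => ψ y) (β : UnitAddCircle)
    rw [h4] at h3
    have h5 : ∀ y : UnitAddCircle, y - ((-β : ℝ) : UnitAddCircle) = y + (β : UnitAddCircle) := by
      intro y
      rw [AddCircle.coe_neg, sub_neg_eq_add]
    simp_rw [h5]
    linarith
  have h3 : c = 0 := le_antisymm h1 (by linarith)
  rw [hc φ, h3]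
  ring

/-- reversibility for measurable functions -/
lemma reversible_lintegral [IsFiniteMeasure ν]
    (hpc : Continuous p) (hqc : Continuous q) (hp : ∀ y, 0 < p y) (hq : ∀ y, 0 < q y)
    (h : ∀ φ : C(UnitAddCircle, ℝ),
      ∫ y, p y * φ y ∂ν = ∫ y, q y * φ (y - (β : UnitAddCircle)) ∂ν)
    {φ : UnitAddCircle → ℝ≥0∞} (hφ : Measurable φ) :
    ∫⁻ y, ENNReal.ofReal (p y) * φ y ∂ν
      = ∫⁻ y, ENNReal.ofReal (q y) * φ (y - (β : UnitAddCircle)) ∂ν := by
  have hT : Measurable fun y : UnitAddCircle => y - (β : UnitAddCircle) :=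
    measurable_id.sub_const _
  have hfp : ∀ {f : UnitAddCircle → ℝ}, Continuous f → (∀ y, 0 < f y) →
      IsFiniteMeasure (ν.withDensity fun y => ENNReal.ofReal (f y)) := by
    intro f hf hf0
    exact isFiniteMeasure_withDensity_ofReal (intg ν hf).2
  have := hfp hpc hp
  have := hfp hqc hq
  have hint : ∀ {f : UnitAddCircle → ℝ} (_ : Continuous f) (_ : ∀ y, 0 < f y)
      {ψ : UnitAddCircle → ℝ}, ∫ y, ψ y ∂(ν.withDensity fun y => ENNReal.ofReal (f y))
        = ∫ y, f y * ψ y ∂ν := by
    intro f hf hf0 ψ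
    have h1 : (fun y => ENNReal.ofReal (f y)) = fun y => ((Real.toNNReal (f y) : ℝ≥0) : ℝ≥0∞) := rfl
    rw [h1, integral_withDensity_eq_integral_smul hf.measurable.real_toNNReal]
    refine integral_congr_ae (Eventually.of_forall fun y => ?_)
    simp only [NNReal.smul_def, smul_eq_mul]
    rw [Real.coe_toNNReal _ (hf0 y).le]
  have hmeas : (ν.withDensity fun y => ENNReal.ofReal (p y))
      = (ν.withDensity fun y => ENNReal.ofReal (q y)).map
        fun y => y - (β : UnitAddCircle) := by
    apply ext_of_forall_integral_eq_of_IsFiniteMeasure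
    intro f
    rw [integral_map hT.aemeasurable f.continuous.aestronglyMeasurable, hint hpc hp, hint hqc hq]
    exact h f.toContinuousMap
  have h1 := congrArg (fun m : Measure UnitAddCircle => ∫⁻ y, φ y ∂m) hmeas
  rw [lintegral_map hφ hT, lintegral_withDensity_eq_lintegral_mul _
    hpc.measurable.ennreal_ofReal hφ, lintegral_withDensity_eq_lintegral_mul (f := fun y =>
      ENNReal.ofReal (q y)) (g := fun y => φ (y - (β : UnitAddCircle))) _
    hqc.measurable.ennreal_ofReal (hφ.comp hT)] at h1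
  exact h1

lemma conf_of_reversible [IsFiniteMeasure ν]
    (hpc : Continuous p) (hqc : Continuous q) (hp : ∀ y, 0 < p y) (hq : ∀ y, 0 < q y)
    (h : ∀ φ : C(UnitAddCircle, ℝ),
      ∫ y, p y * φ y ∂ν = ∫ y, q y * φ (y - (β : UnitAddCircle)) ∂ν) :
    Conf (-β) (fun y => Real.log (p y) - Real.log (q (y + (β : UnitAddCircle)))) ν := by
  intro φ hφ
  have hqT : Continuous fun y => q (y + (β : UnitAddCircle)) := hqc.comp (by fun_prop)
  have h1 := reversible_lintegral hpc hqc hp hq h (φ := fun y => φ y *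
    ENNReal.ofReal ((q (y + (β : UnitAddCircle)))⁻¹))
    (hφ.mul (hqT.inv₀ fun y => (hq _).ne').measurable.ennreal_ofReal)
  simp only [sub_add_cancel] at h1
  have h2 : ∀ y : UnitAddCircle, y + ((-β : ℝ) : UnitAddCircle) = y - (β : UnitAddCircle) := by
    intro y
    rw [AddCircle.coe_neg, sub_eq_add_neg]
  simp_rw [h2]
  have h3 : ∫⁻ y, φ (y - (β : UnitAddCircle)) ∂ν = ∫⁻ y, ENNReal.ofReal (q y) *
      (φ (y - (β : UnitAddCircle)) * ENNReal.ofReal ((q y)⁻¹)) ∂ν := by
    refine lintegral_congr fun y => ?_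
    have : ENNReal.ofReal (q y) * ENNReal.ofReal ((q y)⁻¹) = 1 := by
      rw [← ENNReal.ofReal_mul (hq y).le, mul_inv_cancel₀ (hq y).ne', ENNReal.ofReal_one]
    calc φ (y - (β : UnitAddCircle))
        = (ENNReal.ofReal (q y) * ENNReal.ofReal ((q y)⁻¹)) * φ (y - (β : UnitAddCircle)) := by
          rw [this, one_mul]
      _ = _ := by ring
  rw [h3, ← h1]
  refine lintegral_congr fun y => ?_
  rw [Real.exp_sub, Real.exp_log (hp y), Real.exp_log (hq _), div_eq_mul_inv,
    ENNReal.ofReal_mul (hp y).le]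
  ring

lemma log_lip {δ a b : ℝ} (hδ : 0 < δ) (ha : δ ≤ a) (hb : δ ≤ b) :
    |Real.log a - Real.log b| ≤ δ⁻¹ * |a - b| := by
  have key : ∀ a b : ℝ, δ ≤ a → δ ≤ b → Real.log a - Real.log b ≤ δ⁻¹ * |a - b| := by
    intro a b ha hb
    have ha0 := hδ.trans_le ha
    have hb0 := hδ.trans_le hb
    rw [← Real.log_div ha0.ne' hb0.ne']
    refine (Real.log_le_sub_one_of_pos (div_pos ha0 hb0)).trans ?_
    have h1 : a / b - 1 = b⁻¹ * (a - b) := by field_simp
    rw [h1]
    have h2 : b⁻¹ ≤ δ⁻¹ := inv_anti₀ hδ hb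
    have h3 := inv_pos.2 hb0
    calc b⁻¹ * (a - b) ≤ b⁻¹ * |a - b| := mul_le_mul_of_nonneg_left (le_abs_self _) h3.le
      _ ≤ _ := mul_le_mul_of_nonneg_right h2 (abs_nonneg _)
  rw [abs_le]
  constructor
  · have := key b a hb ha
    rw [abs_sub_comm] at this
    linarith
  · exact key a b ha hb

/-- uniqueness of the stationary measure in the symmetric case -/
theorem Stat.unique {ν' : Measure UnitAddCircle} [IsProbabilityMeasure ν] [IsProbabilityMeasure ν']
    (h : Stat β p q ν) (h' : Stat β p q ν') (hβ : Irrational β) {L δ : ℝ} (hL : 0 ≤ L)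
    (hδ : 0 < δ) (hp : ∀ y, δ ≤ p y) (hp1 : ∀ y, p y ≤ 1) (hq : ∀ y, δ ≤ q y) (hq1 : ∀ y, q y ≤ 1)
    (hpL : ∀ x y, |p x - p y| ≤ L * dist x y) (hqL : ∀ x y, |q x - q y| ≤ L * dist x y)
    (hlog : ∫ y, Real.log (p y) = ∫ y, Real.log (q y)) : ν = ν' := by
  have hcont : ∀ {f : UnitAddCircle → ℝ}, (∀ x y, |f x - f y| ≤ L * dist x y) → Continuous f := by
    intro f hf
    exact (LipschitzWith.of_dist_le_mul (K := ⟨L, hL⟩) fun x y => by
      rw [Real.dist_eq]; exact hf x y).continuous
  have hpc := hcont hpL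
  have hqc := hcont hqL
  have hp0 : ∀ y, 0 < p y := fun y => hδ.trans_le (hp y)
  have hq0 : ∀ y, 0 < q y := fun y => hδ.trans_le (hq y)
  have c1 := conf_of_reversible hpc hqc hp0 hq0
    (h.reversible hβ hpc hqc hp0 hp1 hq0 hq1 hlog)
  have c2 := conf_of_reversible hpc hqc hp0 hq0
    (h'.reversible hβ hpc hqc hp0 hp1 hq0 hq1 hlog)
  refine c1.unique c2 hβ.neg (L := 2 * δ⁻¹ * L) (by positivity) ?_ ?_
  · intro x y
    have e1 := (log_lip hδ (hp x) (hp y)).trans
      (mul_le_mul_of_nonneg_left (hpL x y) (inv_pos.2 hδ).le)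
    have e2 := (log_lip hδ (hq (x + (β : UnitAddCircle))) (hq (y + (β : UnitAddCircle)))).trans
      (mul_le_mul_of_nonneg_left (hqL _ _) (inv_pos.2 hδ).le)
    rw [dist_add_right] at e2
    have e3 : Real.log (p x) - Real.log (q (x + (β : UnitAddCircle)))
        - (Real.log (p y) - Real.log (q (y + (β : UnitAddCircle))))
        = (Real.log (p x) - Real.log (p y)) - (Real.log (q (x + (β : UnitAddCircle)))
          - Real.log (q (y + (β : UnitAddCircle)))) := by ring
    rw [e3]
    refine (abs_sub _ _).trans ?_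
    linarith
  · exact (Real.measurable_log.comp hpc.measurable).sub
      (Real.measurable_log.comp (hqc.measurable.comp (measurable_id.add_const _)))

end Pool.Agent.Q289.QW
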