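import Pool.Agent.Q289.QW.Erg

set_option autoImplicit false

/-!
Uniqueness of the conformal probability measure.
-/

namespace Pool.Agent.Q289.QW

open MeasureTheory Set Filter Topology Metric
open scoped ENNReal NNReal

variable {β : ℝ} {g : UnitAddCircle → ℝ}

lemma Conf.add {μ μ' : Measure UnitAddCircle} (h : Conf β g μ) (h' : Conf β g μ') :
    Conf β g (μ + μ') := fun φ hφ => by
  rw [lintegral_add_measure, lintegral_add_measure, h φ hφ, h' φ hφ]

lemma Conf.quasiErgodic {μ : Measure UnitAddCircle} [IsFiniteMeasure μ] (h : Conf β g μ)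
    (hβ : Irrational β) {L : ℝ} (hL : 0 ≤ L) (hg : ∀ x y, |g x - g y| ≤ L * dist x y)
    (hgm : Measurable g) : QuasiErgodic (fun y => y + (β : UnitAddCircle)) μ where
  measurable := measurable_id.add_const _
  absolutelyContinuous := by
    refine Measure.AbsolutelyContinuous.mk fun s hs hs0 => ?_
    have hT : Measurable fun y : UnitAddCircle => y + (β : UnitAddCircle) :=
      measurable_id.add_const _
    rw [Measure.map_apply hT hs]
    have h1 := h.measure_iter hgm 1 hs
    simp only [Nat.cast_one, one_mul] at h1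
    rw [h1]
    exact setLIntegral_measure_zero _ _ hs0
  aeconst_set := by
    intro s hs hs'
    rcases h.ergodic hβ hL hg hgm hs hs' with h1 | h1
    · exact eventuallyConst_set'.2 (Or.inl (ae_eq_empty.2 h1))
    · exact eventuallyConst_set'.2 (Or.inr (ae_eq_univ.2 h1))

/-- uniqueness of the conformal probability measure -/
lemma Conf.unique {μ μ' : Measure UnitAddCircle} [IsProbabilityMeasure μ] [IsProbabilityMeasure μ']
    (h : Conf β g μ) (h' : Conf β g μ')
    (hβ : Irrational β) {L : ℝ} (hL : 0 ≤ L) (hg : ∀ x y, |g x - g y| ≤ L * dist x y)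
    (hgm : Measurable g) : μ = μ' := by
  have hT : Measurable fun y : UnitAddCircle => y + (β : UnitAddCircle) :=
    measurable_id.add_const _
  obtain ⟨m, hm⟩ : ∃ m, m = μ + μ' := ⟨_, rfl⟩
  have : IsFiniteMeasure m := by rw [hm]; infer_instance
  have : μ.HaveLebesgueDecomposition m := Measure.haveLebesgueDecomposition_of_finiteMeasure
  have hmc : Conf β g m := by rw [hm]; exact h.add h'
  have hq := hmc.quasiErgodic hβ hL hg hgm
  have hac : μ ≪ m := by
    rw [hm]; exact Measure.absolutelyContinuous_of_le (Measure.le_add_right le_rfl)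
  set ρ := μ.rnDeriv m with hρ
  have hρm : Measurable ρ := Measure.measurable_rnDeriv _ _
  have hμ : m.withDensity ρ = μ := Measure.withDensity_rnDeriv_eq μ m hac
  have hint : ∀ φ : UnitAddCircle → ℝ≥0∞, Measurable φ → ∫⁻ y, φ y ∂μ = ∫⁻ y, ρ y * φ y ∂m := by
    intro φ hφ
    conv_lhs => rw [← hμ]
    rw [lintegral_withDensity_eq_lintegral_mul _ hρm hφ]
    rfl
  -- invariance of the density
  have hexp : Measurable fun y => ENNReal.ofReal (Real.exp (g y)) :=
    (Real.measurable_exp.comp hgm).ennreal_ofReal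
  have hρm' : Measurable fun y : UnitAddCircle => ρ (y - (β : UnitAddCircle)) :=
    hρm.comp (measurable_id.sub_const _)
  have key : ∀ φ : UnitAddCircle → ℝ≥0∞, Measurable φ →
      ∫⁻ y, φ y * (ρ (y - (β : UnitAddCircle)) * ENNReal.ofReal (Real.exp (g y))) ∂m
      = ∫⁻ y, φ y * (ρ y * ENNReal.ofReal (Real.exp (g y))) ∂m := by
    intro φ hφ
    have h1 := h φ hφ
    rw [hint (fun y => φ (y + (β : UnitAddCircle))) (hφ.comp hT),
      hint (fun y => φ y * ENNReal.ofReal (Real.exp (g y))) (hφ.mul hexp)] at h1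
    have h2 := hmc (fun y => φ y * ρ (y - (β : UnitAddCircle))) (hφ.mul hρm')
    simp only [add_sub_cancel_right] at h2
    calc ∫⁻ y, φ y * (ρ (y - (β : UnitAddCircle)) * ENNReal.ofReal (Real.exp (g y))) ∂m
        = ∫⁻ y, φ y * ρ (y - (β : UnitAddCircle)) * ENNReal.ofReal (Real.exp (g y)) ∂m := by
          simp_rw [mul_assoc]
      _ = ∫⁻ y, φ (y + (β : UnitAddCircle)) * ρ y ∂m := h2.symm
      _ = ∫⁻ y, ρ y * φ (y + (β : UnitAddCircle)) ∂m := by simp_rw [mul_comm]
      _ = ∫⁻ y, ρ y * (φ y * ENNReal.ofReal (Real.exp (g y))) ∂m := h1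
      _ = _ := lintegral_congr fun y => by ring
  have hae : (fun y : UnitAddCircle => ρ (y - (β : UnitAddCircle)) *
      ENNReal.ofReal (Real.exp (g y))) =ᵐ[m] fun y => ρ y * ENNReal.ofReal (Real.exp (g y)) := by
    refine ae_eq_of_forall_setLIntegral_eq_of_sigmaFinite (hρm'.mul hexp) (hρm.mul hexp) ?_
    intro s hs _
    have h1 := key (s.indicator 1) (measurable_one.indicator hs)
    have h2 : ∀ f : UnitAddCircle → ℝ≥0∞,
        ∫⁻ y, s.indicator 1 y * f y ∂m = ∫⁻ y in s, f y ∂m := by
      intro f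
      rw [← lintegral_indicator hs]
      refine lintegral_congr fun y => ?_
      by_cases hy : y ∈ s
      · rw [indicator_of_mem hy, indicator_of_mem hy]; simp
      · rw [indicator_of_notMem hy, indicator_of_notMem hy]; simp
    rwa [h2, h2] at h1
  have hae2 : ρ ∘ (fun y => y + (β : UnitAddCircle)) =ᵐ[m] ρ := by
    have h1 := hq.toQuasiMeasurePreserving.ae hae
    filter_upwards [h1] with y hy
    rw [add_sub_cancel_right] at hy
    have hpos : ENNReal.ofReal (Real.exp (g (y + (β : UnitAddCircle)))) ≠ 0 := by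
      rw [Ne, ENNReal.ofReal_eq_zero, not_le]; exact Real.exp_pos _
    have := (ENNReal.mul_left_inj hpos ENNReal.ofReal_ne_top).1 hy
    exact this.symm
  obtain ⟨c, hc⟩ := hq.ae_eq_const_of_ae_eq_comp_ae hρm.aestronglyMeasurable hae2
  have hμc : μ = c • m := by
    rw [← hμ, withDensity_congr_ae hc]
    exact withDensity_const c
  have h1 : c * 2 = 1 := by
    have := congrArg (fun ν : Measure UnitAddCircle => ν univ) hμc
    simp only [Measure.smul_apply, smul_eq_mul, measure_univ, hm, Measure.add_apply] at this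
    rw [this]
    norm_num
  have h2 : c = 2⁻¹ := by
    rw [ENNReal.eq_inv_of_mul_eq_one_left h1]
  have h3 : (2 : ℝ≥0∞) • μ = μ + μ' := by
    conv_lhs => rw [hμc, h2, smul_smul, ENNReal.mul_inv_cancel (by norm_num) (by norm_num), one_smul]
    exact hm
  have h4 : μ + μ = μ + μ' := by rw [← h3, two_smul]
  ext s _
  have h5 := congrArg (fun ν : Measure UnitAddCircle => ν s) h4
  simp only [Measure.add_apply] at h5
  exact (ENNReal.add_right_inj (measure_ne_top μ s)).1 h5

end Pool.Agent.Q289.QW
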